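import Pool.Agent.CMP.MeanB

/-!
COMPRESSION, K4c: the sum over the start edges; the mean length (helper39).
-/

set_option autoImplicit false

namespace HexObs

namespace CMP

open LP Complex Finset

/-- sums over the feet. -/
lemma sum_natAbs (g : ℕ → ℝ) (hg : ∀ j, 0 ≤ g j) (N : ℕ) :
    ∑ k ∈ Ioo (-(N : ℤ)) N, g k.natAbs ≤ 2 * ∑ j ∈ range N, g j := by
  have h1 : ∑ k ∈ (Ioo (-(N : ℤ)) N).filter (fun k => 0 ≤ k), g k.natAbs ≤ ∑ j ∈ range N, g j := by
    rw [← Finset.sum_image (f := g) (g := fun k : ℤ => k.natAbs)]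
    · apply Finset.sum_le_sum_of_subset_of_nonneg
      · intro j hj
        rw [Finset.mem_image] at hj
        obtain ⟨k, hk, rfl⟩ := hj
        rw [Finset.mem_filter, Finset.mem_Ioo] at hk
        rw [Finset.mem_range]
        omega
      · intro j _ _
        exact hg j
    · intro k hk l hl h
      rw [Finset.mem_coe, Finset.mem_filter] at hk hl
      have h' : k.natAbs = l.natAbs := h
      omega
  have h2 : ∑ k ∈ (Ioo (-(N : ℤ)) N).filter (fun k => ¬ 0 ≤ k), g k.natAbs ≤ ∑ j ∈ range N, g j := by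
    rw [← Finset.sum_image (f := g) (g := fun k : ℤ => k.natAbs)]
    · apply Finset.sum_le_sum_of_subset_of_nonneg
      · intro j hj
        rw [Finset.mem_image] at hj
        obtain ⟨k, hk, rfl⟩ := hj
        rw [Finset.mem_filter, Finset.mem_Ioo] at hk
        rw [Finset.mem_range]
        omega
      · intro j _ _
        exact hg j
    · intro k hk l hl h
      rw [Finset.mem_coe, Finset.mem_filter] at hk hl
      have h' : k.natAbs = l.natAbs := h
      omega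
  have h3 := Finset.sum_filter_add_sum_filter_not (Ioo (-(N : ℤ)) N) (fun k => 0 ≤ k) (fun k => g k.natAbs)
  linarith

lemma far_sum {q : ℝ} (hq : 0 < q) (hq1 : q < 1) {T : ℕ} (hT : 1 ≤ T) (M N : ℕ) :
    ∑ k ∈ Ioo (-(N : ℤ)) N, q ^ (max (M * T) (k.natAbs - T) / T) ≤ 2 * (q ^ M * ((M + 1) * T * (1 + (1 - q)⁻¹))) := by
  refine (sum_natAbs (fun j => q ^ (max (M * T) (j - T) / T)) (fun j => pow_nonneg hq.le _) N).trans ?_
  apply mul_le_mul_of_nonneg_left _ (by norm_num)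
  have hpt : ∀ j : ℕ, q ^ (max (M * T) (j - T) / T) ≤
      q ^ M * (if j < (M + 1) * T then 1 else q ^ ((j - (M + 1) * T) / T)) := by
    intro j
    by_cases hj : j < (M + 1) * T
    · rw [if_pos hj, mul_one]
      apply pow_le_pow_of_le_one hq.le hq1.le
      rw [Nat.le_div_iff_mul_le (by omega)]
      exact le_max_left _ _
    · rw [if_neg hj, ← pow_add]
      apply pow_le_pow_of_le_one hq.le hq1.le
      push Not at hj
      have e : (M + 1) * T = M * T + T := by ring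
      rw [e] at hj ⊢
      rw [Nat.le_div_iff_mul_le (by omega), add_mul]
      have h1 := Nat.div_mul_le_self (j - (M * T + T)) T
      have h2 : j - T ≤ max (M * T) (j - T) := le_max_right _ _
      omega
  refine (Finset.sum_le_sum (fun j _ => hpt j)).trans ?_
  rw [← Finset.mul_sum]
  apply mul_le_mul_of_nonneg_left _ (pow_nonneg hq.le _)
  have h1 : ∑ j ∈ range N, (if j < (M + 1) * T then (1 : ℝ) else q ^ ((j - (M + 1) * T) / T)) ≤
      ∑ j ∈ range ((M + 1) * T + T * N), (if j < (M + 1) * T then (1 : ℝ) else q ^ ((j - (M + 1) * T) / T)) := by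
    apply Finset.sum_le_sum_of_subset_of_nonneg
    · intro j hj
      rw [Finset.mem_range] at hj ⊢
      have : N ≤ T * N := Nat.le_mul_of_pos_left _ hT
      omega
    · intro j _ _
      split_ifs
      · exact zero_le_one
      · exact pow_nonneg hq.le _
  refine h1.trans ?_
  rw [Finset.sum_range_add]
  have h2 : ∑ x ∈ range ((M + 1) * T), (if x < (M + 1) * T then (1 : ℝ) else q ^ ((x - (M + 1) * T) / T)) =
      (M + 1) * T := by
    rw [Finset.sum_congr rfl (g := fun _ => (1 : ℝ))]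
    · rw [Finset.sum_const, Finset.card_range, nsmul_eq_mul, mul_one]
      push_cast
      ring
    · intro j hj
      rw [if_pos (Finset.mem_range.1 hj)]
  have h3 : ∑ x ∈ range (T * N), (if (M + 1) * T + x < (M + 1) * T then (1 : ℝ) else
      q ^ (((M + 1) * T + x - (M + 1) * T) / T)) ≤ T * (1 - q)⁻¹ := by
    rw [Finset.sum_congr rfl (g := fun x => q ^ (x / T))]
    · exact arcA_geom hq hq1 N hT
    · intro j _
      rw [if_neg (by omega), Nat.add_sub_cancel_left]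
  rw [h2]
  have h4 : 0 < (1 - q)⁻¹ := inv_pos.2 (by linarith)
  have h5 : (T : ℝ) * (1 - q)⁻¹ ≤ (M + 1) * T * (1 - q)⁻¹ := by
    apply mul_le_mul_of_nonneg_right _ h4.le
    have : (0 : ℝ) ≤ M * T := by positivity
    linarith
  linarith

open Classical in
/-- the sum over the edges of one side. -/
lemma side_sum {F : Finset (Pt × Pt)} (κ : Pt × Pt → ℤ) (hinj : ∀ a ∈ F, ∀ b ∈ F, κ a = κ b → a = b) {N : ℕ}
    (hκ : ∀ a ∈ F, κ a ∈ Ioo (-(N : ℤ)) N) {g : Pt × Pt → ℝ} {G : ℤ → ℝ} (hG : ∀ k, 0 ≤ G k)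
    (hg : ∀ a ∈ F, g a ≤ G (κ a)) : ∑ a ∈ F, g a ≤ ∑ k ∈ Ioo (-(N : ℤ)) N, G k := by
  refine (Finset.sum_le_sum hg).trans ?_
  rw [← Finset.sum_image (f := G) (g := κ) (fun a ha b hb h => hinj a ha b hb h)]
  apply Finset.sum_le_sum_of_subset_of_nonneg
  · intro k hk
    rw [Finset.mem_image] at hk
    obtain ⟨a, ha, rfl⟩ := hk
    exact hκ a ha
  · intro k _ _
    exact hG k

open Classical in
/-- one side, all vertices of the two middle columns. -/
lemma side_total {C q : ℝ} (hC : 0 < C) (hq : 0 < q) (hq1 : q < 1) {h M L : ℕ} (hh : 1 ≤ h) (hM : 1 ≤ M)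
    {φ : ℤ × (ℕ × ℕ) → Pt} (hφ : ∀ y z : ℤ × (ℕ × ℕ), y.2 ∈ KJ h → z.2 ∈ KJ h → φ y = φ z → y = z)
    {F : Finset (Pt × Pt)} (κ : Pt × Pt → ℤ) (hinj : ∀ a ∈ F, ∀ b ∈ F, κ a = κ b → a = b)
    (hκ : ∀ a ∈ F, κ a ∈ Ioo (-(L : ℤ)) L) (hb : ∀ a ∈ F, ∀ x ∈ KJ h,
      ∑ t ∈ Gd (3 * h) L (kv (kl h x)) a, cw t ≤ ∑ t ∈ (WW (3 * h) h (M * (3 * h))).filter (Vis (φ (κ a, x))), cw t +
        C * q ^ (max (M * (3 * h)) ((κ a).natAbs - 3 * h) / (3 * h))) :
    ∑ x ∈ KJ h, ∑ a ∈ F, ∑ t ∈ Gd (3 * h) L (kv (kl h x)) a, cw t ≤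
      ∑ t ∈ WW (3 * h) h (M * (3 * h)), cw t * t.length +
        12 * C * (1 + (1 - q)⁻¹) * h * (M + 1) * q ^ M * h := by
  have hMh : 1 ≤ M * (3 * h) := Nat.mul_pos hM (by omega)
  have hT : 1 ≤ 3 * h := by omega
  have hnn : ∀ t ∈ WW (3 * h) h (M * (3 * h)), 0 ≤ cw t := by
    intro t ht
    exact par_exits_cw hT hMh hMh (mem_WW.1 ht).1
  have h1 : ∀ x ∈ KJ h, ∑ a ∈ F, ∑ t ∈ Gd (3 * h) L (kv (kl h x)) a, cw t ≤
      ∑ k ∈ Ioo (-(L : ℤ)) L, (∑ t ∈ (WW (3 * h) h (M * (3 * h))).filter (Vis (φ (k, x))), cw t +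
        C * q ^ (max (M * (3 * h)) (k.natAbs - 3 * h) / (3 * h))) := by
    intro x hx
    apply side_sum κ hinj hκ (g := fun a => ∑ t ∈ Gd (3 * h) L (kv (kl h x)) a, cw t)
    · intro k
      apply add_nonneg
      · exact Finset.sum_nonneg (fun t ht => hnn t (Finset.mem_filter.1 ht).1)
      · have := pow_nonneg hq.le (max (M * (3 * h)) (k.natAbs - 3 * h) / (3 * h))
        positivity
    · intro a ha
      exact hb a ha x hx
  refine (Finset.sum_le_sum h1).trans ?_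
  simp only [Finset.sum_add_distrib, ← Finset.mul_sum]
  apply add_le_add
  · have h2 := count_hits (J := Ioo (-(L : ℤ)) L ×ˢ KJ h) (φ := φ) (W := WW (3 * h) h (M * (3 * h))) (w := cw)
      (by
        intro y hy z hz he
        rw [Finset.mem_coe, Finset.mem_product] at hy hz
        exact hφ y z hy.2 hz.2 he) hnn
    refine le_trans (le_of_eq ?_) h2
    rw [Finset.sum_product, Finset.sum_comm]
  · have h3 := far_sum hq hq1 (T := 3 * h) hT M L
    rw [Finset.sum_const, nsmul_eq_mul, KJ_card]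
    have h4 : (1 : ℝ) ≤ h := by exact_mod_cast hh
    have h5 : C * ∑ k ∈ Ioo (-(L : ℤ)) L, q ^ (max (M * (3 * h)) (k.natAbs - 3 * h) / (3 * h)) ≤
        C * (2 * (q ^ M * ((M + 1) * (3 * h : ℕ) * (1 + (1 - q)⁻¹)))) := mul_le_mul_of_nonneg_left h3 hC.le
    have h6 := mul_le_mul_of_nonneg_left h5 (by positivity : (0 : ℝ) ≤ ((2 * h : ℕ) : ℝ))
    refine le_trans (le_of_eq (by ring)) (h6.trans (le_of_eq ?_))
    push_cast
    ring

open Classical in
/-- the walks through one vertex of the middle. -/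
lemma one_vertex {h L : ℕ} (hh : 1 ≤ h) (hL : 3 * h < L) {x : ℕ × ℕ} (hx : x ∈ KJ h) {ε : ℝ}
    (hε : ∑ a ∈ bd (Par (3 * h) L L), ∑ t ∈ (ex0 (Par (3 * h) L L) a).filter (fun t =>
      ((a.2 ≠ up ∧ a.2 ≠ -up) ∨ (dx a.2 t t.length ≠ up ∧ dx a.2 t t.length ≠ -up)) ∧ Hit {kv (kl h x)} a t),
        xc ^ t.length ≤ ε) :
    3 ≤ ε + ∑ a ∈ (bd (Par (3 * h) L L)).filter (fun a => a.2 = up), ∑ t ∈ Gd (3 * h) L (kv (kl h x)) a, cw t +
      ∑ a ∈ (bd (Par (3 * h) L L)).filter (fun a => a.2 = -up), ∑ t ∈ Gd (3 * h) L (kv (kl h x)) a, cw t := by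
  have hv : kv (kl h x) ∈ Par (3 * h) L L := by
    have hb := kl_bd hx
    rw [mem_par]
    refine ⟨kv_cl hx, ?_, ?_, ?_, ?_⟩
    · rw [lv_kv]; omega
    · rw [lv_kv]; push_cast; omega
    · rw [nn_kv]; omega
    · rw [nn_kv]; omega
  have h1 := HH_three (par_full (3 * h) L L) hv
  rw [HH_def] at h1
  refine h1.trans ?_
  have h2 : ∀ a ∈ bd (Par (3 * h) L L), ∑ t ∈ (ex0 (Par (3 * h) L L) a).filter (Hit {kv (kl h x)} a), cw t ≤
      ∑ t ∈ (ex0 (Par (3 * h) L L) a).filter (fun t =>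
        ((a.2 ≠ up ∧ a.2 ≠ -up) ∨ (dx a.2 t t.length ≠ up ∧ dx a.2 t t.length ≠ -up)) ∧ Hit {kv (kl h x)} a t),
          xc ^ t.length + (if a.2 = up then ∑ t ∈ Gd (3 * h) L (kv (kl h x)) a, cw t else 0) +
        (if a.2 = -up then ∑ t ∈ Gd (3 * h) L (kv (kl h x)) a, cw t else 0) := by
    intro a _
    by_cases ha : a.2 = up ∨ a.2 = -up
    · have h3 : (if a.2 = up then ∑ t ∈ Gd (3 * h) L (kv (kl h x)) a, cw t else 0) +
          (if a.2 = -up then ∑ t ∈ Gd (3 * h) L (kv (kl h x)) a, cw t else 0) =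
            ∑ t ∈ Gd (3 * h) L (kv (kl h x)) a, cw t := by
        have hne : (up : Pt) ≠ -up := by decide
        rcases ha with ha | ha
        · rw [if_pos ha, if_neg (by rw [ha]; exact hne), add_zero]
        · rw [if_neg (by rw [ha]; exact hne.symm), if_pos ha, zero_add]
      rw [add_assoc, h3]
      have h4 : (ex0 (Par (3 * h) L L) a).filter (Hit {kv (kl h x)} a) =
          (ex0 (Par (3 * h) L L) a).filter (fun t =>
            ((a.2 ≠ up ∧ a.2 ≠ -up) ∨ (dx a.2 t t.length ≠ up ∧ dx a.2 t t.length ≠ -up)) ∧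
              Hit {kv (kl h x)} a t) ∪ Gd (3 * h) L (kv (kl h x)) a := by
        ext t
        rw [Finset.mem_union, Finset.mem_filter, Finset.mem_filter, mem_Gd]
        tauto
      have h5 : Disjoint ((ex0 (Par (3 * h) L L) a).filter (fun t =>
            ((a.2 ≠ up ∧ a.2 ≠ -up) ∨ (dx a.2 t t.length ≠ up ∧ dx a.2 t t.length ≠ -up)) ∧
              Hit {kv (kl h x)} a t)) (Gd (3 * h) L (kv (kl h x)) a) := by
        rw [Finset.disjoint_left]
        intro t ht ht2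
        rw [Finset.mem_filter] at ht
        rw [mem_Gd] at ht2
        tauto
      rw [h4, Finset.sum_union h5]
      apply add_le_add_left
      exact Finset.sum_le_sum (fun t _ => cw_le_pow t)
    · push Not at ha
      rw [if_neg ha.1, if_neg ha.2, add_zero, add_zero]
      have h4 : (ex0 (Par (3 * h) L L) a).filter (Hit {kv (kl h x)} a) =
          (ex0 (Par (3 * h) L L) a).filter (fun t =>
            ((a.2 ≠ up ∧ a.2 ≠ -up) ∨ (dx a.2 t t.length ≠ up ∧ dx a.2 t t.length ≠ -up)) ∧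
              Hit {kv (kl h x)} a t) := by
        ext t
        rw [Finset.mem_filter, Finset.mem_filter]
        tauto
      rw [h4]
      exact Finset.sum_le_sum (fun t _ => cw_le_pow t)
  refine (Finset.sum_le_sum h2).trans ?_
  rw [Finset.sum_add_distrib, Finset.sum_add_distrib, Finset.sum_filter, Finset.sum_filter]
  linarith

open Classical in
theorem mean_ge_of (hK1 : ∀ (T : ℕ) (v : Pt) (ε : ℝ), 1 ≤ T → 0 < ε → ∃ A0 : ℕ, ∀ A B : ℕ, A0 ≤ A → A0 ≤ B →
    ∑ a ∈ bd (Par T A B), ∑ t ∈ (ex0 (Par T A B) a).filter (fun t =>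
      ((a.2 ≠ up ∧ a.2 ≠ -up) ∨ (dx a.2 t t.length ≠ up ∧ dx a.2 t t.length ≠ -up)) ∧ Hit {v} a t),
        xc ^ t.length ≤ ε)
    (hK2 : ∃ C q : ℝ, 0 < C ∧ 0 < q ∧ q < 1 ∧ ∀ T A B r : ℕ, 1 ≤ T → 1 ≤ A → 1 ≤ B → 1 ≤ r →
      ∑ t ∈ (exits (Par T A B) oo up).filter (Far r), cw t ≤ C * q ^ (r / T)) :
    ∃ C q : ℝ, 0 < C ∧ 0 < q ∧ q < 1 ∧ ∀ h M : ℕ, 1 ≤ h → 1 ≤ M →
      (5 / 2 - C * h * (M + 1) * q ^ M) * h ≤ ∑ t ∈ WW (3 * h) h (M * (3 * h)), cw t * t.length := by
  obtain ⟨C, q, hC, hq, hq1, hlat⟩ := hK2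
  have hq2 : 0 < (1 - q)⁻¹ := inv_pos.2 (by linarith)
  refine ⟨12 * C * (1 + (1 - q)⁻¹), q, by positivity, hq, hq1, ?_⟩
  intro h M hh hM
  have hMh : 1 ≤ M * (3 * h) := Nat.mul_pos hM (by omega)
  choose A0 hA0 using fun v : Pt => hK1 (3 * h) v (1 / 2) (by omega) (by norm_num)
  set L := 3 * h + 1 + ∑ x ∈ KJ h, A0 (kv (kl h x)) with hL
  have hL1 : 3 * h < L := by omega
  have hL2 : ∀ x ∈ KJ h, A0 (kv (kl h x)) ≤ L := by
    intro x hx
    have h9 : A0 (kv (kl h x)) ≤ ∑ x ∈ KJ h, A0 (kv (kl h x)) :=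
      Finset.single_le_sum (f := fun x => A0 (kv (kl h x))) (fun i _ => Nat.zero_le _) hx
    omega
  have h1 : ∑ x ∈ KJ h, (3 : ℝ) ≤ ∑ x ∈ KJ h, (1 / 2 +
      ∑ a ∈ (bd (Par (3 * h) L L)).filter (fun a => a.2 = up), ∑ t ∈ Gd (3 * h) L (kv (kl h x)) a, cw t +
      ∑ a ∈ (bd (Par (3 * h) L L)).filter (fun a => a.2 = -up), ∑ t ∈ Gd (3 * h) L (kv (kl h x)) a, cw t) := by
    apply Finset.sum_le_sum
    intro x hx
    exact one_vertex hh hL1 hx (hA0 _ L L (hL2 x hx) (hL2 x hx))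
  rw [Finset.sum_add_distrib, Finset.sum_add_distrib, Finset.sum_const, Finset.sum_const, nsmul_eq_mul, nsmul_eq_mul,
    KJ_card] at h1
  have h2 := side_total (L := L) hC hq hq1 hh hM (φ := phF h) (fun y z hy hz he => phF_inj h hy hz he)
    (F := (bd (Par (3 * h) L L)).filter (fun a => a.2 = up)) (fun a => -a.1.2)
    (by
      intro a ha b hb he
      rw [Finset.mem_filter] at ha hb
      obtain ⟨k, rfl, _, _⟩ := floor_start (by omega) (by omega) (by omega) ha.1 ha.2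
      obtain ⟨l, rfl, _, _⟩ := floor_start (by omega) (by omega) (by omega) hb.1 hb.2
      have he' : - -k = - -l := he
      have : k = l := by omega
      rw [this])
    (by
      intro a ha
      rw [Finset.mem_filter] at ha
      obtain ⟨k, rfl, h3, h4⟩ := floor_start (by omega) (by omega) (by omega) ha.1 ha.2
      rw [Finset.mem_Ioo]
      show -(L : ℤ) < - -k ∧ - -k < L
      omega)
    (by
      intro a ha x hx
      rw [Finset.mem_filter] at ha
      obtain ⟨k, rfl, h3, h4⟩ := floor_start (by omega) (by omega) (by omega) ha.1 ha.2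
      have h5 := floor_bound hlat hh hMh h3 h4 hx
      have e : - -k = k := neg_neg k
      show _ ≤ ∑ t ∈ (WW (3 * h) h (M * (3 * h))).filter (Vis (phF h (- -k, x))), cw t +
        C * q ^ (max (M * (3 * h)) ((- -k).natAbs - 3 * h) / (3 * h))
      rw [e]
      exact h5)
  have h3 := side_total (L := L) hC hq hq1 hh hM (φ := phT h) (fun y z hy hz he => phT_inj h hy hz he)
    (F := (bd (Par (3 * h) L L)).filter (fun a => a.2 = -up)) (fun a => (3 * h : ℕ) + 1 - a.1.2)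
    (by
      intro a ha b hb he
      rw [Finset.mem_filter] at ha hb
      obtain ⟨k, rfl, _, _⟩ := top_start (by omega) (by omega) (by omega) ha.1 ha.2
      obtain ⟨l, rfl, _, _⟩ := top_start (by omega) (by omega) (by omega) hb.1 hb.2
      have he' : ((3 * h : ℕ) : ℤ) + 1 - ((3 * h : ℕ) + 1 - k) = (3 * h : ℕ) + 1 - ((3 * h : ℕ) + 1 - l) := he
      have : k = l := by linarith
      rw [this])
    (by
      intro a ha
      rw [Finset.mem_filter] at ha
      obtain ⟨k, rfl, h3, h4⟩ := top_start (by omega) (by omega) (by omega) ha.1 ha.2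
      rw [Finset.mem_Ioo]
      show -(L : ℤ) < ((3 * h : ℕ) : ℤ) + 1 - ((3 * h : ℕ) + 1 - k) ∧ ((3 * h : ℕ) : ℤ) + 1 - ((3 * h : ℕ) + 1 - k) < L
      omega)
    (by
      intro a ha x hx
      rw [Finset.mem_filter] at ha
      obtain ⟨k, rfl, h3, h4⟩ := top_start (by omega) (by omega) (by omega) ha.1 ha.2
      have h5 := top_bound hlat hh hMh h3 h4 hx
      have e : ((3 * h : ℕ) : ℤ) + 1 - ((3 * h : ℕ) + 1 - k) = k := by ring
      show _ ≤ ∑ t ∈ (WW (3 * h) h (M * (3 * h))).filter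
        (Vis (phT h (((3 * h : ℕ) : ℤ) + 1 - ((3 * h : ℕ) + 1 - k), x))), cw t +
        C * q ^ (max (M * (3 * h)) ((((3 * h : ℕ) : ℤ) + 1 - ((3 * h : ℕ) + 1 - k)).natAbs - 3 * h) / (3 * h))
      rw [e]
      exact h5)
  push_cast at h1
  linarith

end CMP

end HexObs
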