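import Pool.Agent.CMP.Defs

/-!
COMPRESSION, K2: walks in the strip that go beyond the lateral distance r (helper70).
-/

set_option autoImplicit false

namespace HexObs

namespace CMP

open LP Complex Finset

private lemma lt_cw (t : List Bool) : cw t = Tube.fb 0 t := by
  unfold cw Tube.fb
  rw [add_zero]

open Classical in
/-- walks that go beyond the gate on the right. -/
private lemma lt_R {T L r r' : ℕ} (hT : 1 ≤ T) (hL : 1 ≤ L) (hr : 1 ≤ r) (hrr : r ≤ r') :
    ∑ t ∈ (exits (Tube.dF upd oo true T L r') oo up).filter (fun t =>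
      ∃ i, 1 ≤ i ∧ i ≤ t.length ∧ (3 * r - 1 : ℤ) ≤ nn (vx oo up t i)), Tube.fb 0 t ≤
    Tube.wS (Tube.gE upd oo true T L r) := by
  have hr' : 1 ≤ r' := by omega
  have hs : Tube.dF upd oo true T L r ⊆ Tube.dF upd oo true T L r' := by
    intro v hv
    rw [arcA_mem] at hv ⊢
    have h7 : (r : ℤ) ≤ r' := by exact_mod_cast hrr
    exact ⟨hv.1, hv.2.1, hv.2.2.1, hv.2.2.2.1, by linarith [hv.2.2.2.2]⟩
  have h1 := Tube.two_dom upd (Tube.dF_half upd oo true T L r) (Tube.dF_half upd oo true T L r') 0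
  have h2 : ∑ t ∈ (exits (Tube.dF upd oo true T L r') oo up).filter (fun t =>
      ∃ i, 1 ≤ i ∧ i ≤ t.length ∧ (3 * r - 1 : ℤ) ≤ nn (vx oo up t i)), Tube.fb 0 t ≤
      ∑ t ∈ exits (Tube.dF upd oo true T L r') oo up \ exits (Tube.dF upd oo true T L r) oo up, Tube.fb 0 t := by
    apply Finset.sum_le_sum_of_subset_of_nonneg
    · intro t ht
      obtain ⟨h3, i, h4, h5, h6⟩ := Finset.mem_filter.1 ht
      refine Finset.mem_sdiff.2 ⟨h3, fun h7 => ?_⟩
      have h8 := (mem_exits.1 h7).1.mem i h4 h5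
      rw [arcA_mem] at h8
      have h9 := h8.2.2.2.2
      unfold nn at h6
      omega
    · intro t ht _
      exact Tube.fb_nonneg arcA_zero (Tube.dm_wind upd true hT hL hr' (Finset.mem_sdiff.1 ht).1)
  have h3 : ∑ t ∈ exits (Tube.dF upd oo true T L r) oo up \ exits (Tube.dF upd oo true T L r') oo up, Tube.fb 0 t ≤
      ∑ t ∈ Tube.gE upd oo true T L r, Tube.fb 0 t := by
    apply Finset.sum_le_sum_of_subset_of_nonneg
    · intro t ht
      obtain ⟨h4, h5⟩ := Finset.mem_sdiff.1 ht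
      refine Finset.mem_filter.2 ⟨h4, Tube.exit_gate upd oo (k' := true) (r' := r') hT hL hr h4 ?_⟩
      by_contra hcon
      obtain ⟨ha, _⟩ := mem_exits.1 h4
      exact h5 (mem_exits.2 ⟨⟨fun i h6 h7 => hs (ha.mem i h6 h7), ha.inj⟩, hcon⟩)
    · intro t ht _
      exact Tube.fb_nonneg arcA_zero (Tube.dm_wind upd true hT hL hr (Finset.mem_filter.1 ht).1)
  rw [Tube.sum_fb_const (Tube.gE_wind upd oo true hT hL hr)] at h3
  have h4 : Real.cos ((Tube.gw true : ℝ) * (Real.pi / 8) + 0) * Tube.wS (Tube.gE upd oo true T L r) ≤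
      Tube.wS (Tube.gE upd oo true T L r) := by
    have := mul_le_mul_of_nonneg_right (Real.cos_le_one ((Tube.gw true : ℝ) * (Real.pi / 8) + 0))
      (Tube.wS_nonneg (Tube.gE upd oo true T L r))
    linarith
  linarith

open Classical in
/-- the exits through the left wall are the mirror image of exits through a gate. -/
private lemma lt_mir {T L r : ℕ} (hT : 1 ≤ T) (hL : 1 ≤ L) (hr : 1 ≤ r) :
    Tube.wS ((exits (Tube.dF upd oo true T L r) oo up).filter (fun t => dx up t t.length = rotL up)) ≤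
      Tube.wS (Tube.gE upd oo false T (r + T + 1) L) := by
  set X := (exits (Tube.dF upd oo true T L r) oo up).filter (fun t => dx up t t.length = rotL up) with hX
  have hinj : Function.Injective (fun t : List Bool => t.map not) := by
    intro s t hst
    have := congrArg (List.map not) hst
    simpa only [map_not_not] using this
  have h5 : Tube.wS X = Tube.wS (X.image (fun t => t.map not)) := by
    unfold Tube.wS
    rw [Finset.sum_image (fun a _ b _ h => hinj h)]
    apply Finset.sum_congr rfl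
    intro t _
    rw [List.length_map]
  have h6 : X.image (fun t => t.map not) ⊆ Tube.gE upd oo false T (r + T + 1) L := by
    intro s hs2
    obtain ⟨t, ht, rfl⟩ := Finset.mem_image.1 hs2
    obtain ⟨ht1, ht2⟩ := Finset.mem_filter.1 ht
    obtain ⟨ha, ho⟩ := mem_exits.1 ht1
    have hcl : ∀ v : Pt, cl ((-v.1, v.1 + v.2) : Pt) = cl v := by
      intro v
      have h3 : (3 : ZMod 3) = 0 := three_eq
      simp only [cl]
      push_cast
      linear_combination (-(v.1 : ZMod 3)) * h3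
    have hl : (t.map not).length = t.length := List.length_map _
    have htipeq : tip oo up (t.map not) = (-(tip oo up t).1, (tip oo up t).1 + (tip oo up t).2) := by
      unfold tip
      rw [hl]
      exact arcA_not t le_rfl
    refine Finset.mem_filter.2 ⟨mem_exits.2 ⟨⟨?_, ?_⟩, ?_⟩, ?_⟩
    · intro i hi1 hi2
      rw [hl] at hi2
      have h7 := ha.mem i hi1 hi2
      rw [arcA_mem] at h7
      rw [arcA_not t (by omega), arcA_memF, hcl]
      obtain ⟨g1, g2, g3, g4, g5⟩ := h7
      refine ⟨g1, ?_, ?_, ?_, ?_⟩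
      · show 0 < -(vx oo up t i).1 + 2 * ((vx oo up t i).1 + (vx oo up t i).2)
        linarith
      · show -(vx oo up t i).1 + 2 * ((vx oo up t i).1 + (vx oo up t i).2) < 3 * T + 2
        linarith
      · show ((vx oo up t i).1 + (vx oo up t i).2) - -(vx oo up t i).1 < 3 * ((r + T + 1 : ℕ) : ℤ)
        push_cast
        linarith
      · show 2 * -(vx oo up t i).1 + ((vx oo up t i).1 + (vx oo up t i).2) < 3 * L
        linarith
    · intro i k hik hk heq
      rw [hl] at hk
      rw [arcA_not t (by omega), arcA_not t (by omega)] at heq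
      apply ha.inj i k hik hk
      have e1 := congrArg Prod.fst heq
      have e2 := congrArg Prod.snd heq
      simp only at e1 e2
      ext
      · linarith
      · linarith
    · rw [htipeq, arcA_memF]
      rintro ⟨_, _, _, _, g5⟩
      have g6 : 2 * -(tip oo up t).1 + ((tip oo up t).1 + (tip oo up t).2) < 3 * L := g5
      rcases Tube.dm_exit upd true hT hL hr ht1 with ⟨h, _⟩ | ⟨h, _⟩ | ⟨_, h⟩ | ⟨h, _⟩
      · rw [ht2] at h
        exact absurd h (by decide)
      · rw [ht2] at h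
        exact absurd h (by decide)
      · have e2 : ip (tip oo up t - oo) (rotL up) = (tip oo up t).2 - (tip oo up t).1 := by
          simp only [ip, up, oo, rotL, Prod.fst_sub, Prod.snd_sub]
          ring
        rw [e2] at h
        linarith
      · rw [ht2] at h
        exact absurd h (by decide)
    · rw [hl, dx_not t le_rfl, ht2]
      decide
  rw [h5]
  exact Tube.wS_mono h6

open Classical in
/-- walks that go beyond the wall on the left. -/
private lemma lt_L {T L L' r : ℕ} (hT : 1 ≤ T) (hL : 1 ≤ L) (hr : 1 ≤ r) (hLL : L ≤ L') :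
    ∑ t ∈ (exits (Tube.dF upd oo true T L' r) oo up).filter (fun t =>
      ∃ i, 1 ≤ i ∧ i ≤ t.length ∧ nn (vx oo up t i) ≤ -(3 * L : ℤ)), Tube.fb 0 t ≤
    Tube.wS (Tube.gE upd oo false T (r + T + 1) L) := by
  have hL' : 1 ≤ L' := by omega
  have hs : Tube.dF upd oo true T L r ⊆ Tube.dF upd oo true T L' r := by
    intro v hv
    rw [arcA_mem] at hv ⊢
    have h7 : (L : ℤ) ≤ L' := by exact_mod_cast hLL
    exact ⟨hv.1, hv.2.1, hv.2.2.1, by linarith [hv.2.2.2.1], hv.2.2.2.2⟩
  have h1 := Tube.two_dom upd (Tube.dF_half upd oo true T L r) (Tube.dF_half upd oo true T L' r) 0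
  have h2 : ∑ t ∈ (exits (Tube.dF upd oo true T L' r) oo up).filter (fun t =>
      ∃ i, 1 ≤ i ∧ i ≤ t.length ∧ nn (vx oo up t i) ≤ -(3 * L : ℤ)), Tube.fb 0 t ≤
      ∑ t ∈ exits (Tube.dF upd oo true T L' r) oo up \ exits (Tube.dF upd oo true T L r) oo up, Tube.fb 0 t := by
    apply Finset.sum_le_sum_of_subset_of_nonneg
    · intro t ht
      obtain ⟨h3, i, h4, h5, h6⟩ := Finset.mem_filter.1 ht
      refine Finset.mem_sdiff.2 ⟨h3, fun h7 => ?_⟩
      have h8 := (mem_exits.1 h7).1.mem i h4 h5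
      rw [arcA_mem] at h8
      have h9 := h8.2.2.2.1
      unfold nn at h6
      omega
    · intro t ht _
      exact Tube.fb_nonneg arcA_zero (Tube.dm_wind upd true hT hL' hr (Finset.mem_sdiff.1 ht).1)
  set X := (exits (Tube.dF upd oo true T L r) oo up).filter (fun t => dx up t t.length = rotL up) with hX
  have h3 : ∑ t ∈ exits (Tube.dF upd oo true T L r) oo up \ exits (Tube.dF upd oo true T L' r) oo up, Tube.fb 0 t ≤
      ∑ t ∈ X, Tube.fb 0 t := by
    apply Finset.sum_le_sum_of_subset_of_nonneg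
    · intro t ht
      obtain ⟨h4, h5⟩ := Finset.mem_sdiff.1 ht
      refine Finset.mem_filter.2 ⟨h4, ?_⟩
      have htip : tip oo up t ∈ Tube.dF upd oo true T L' r := by
        by_contra hcon
        obtain ⟨ha, _⟩ := mem_exits.1 h4
        exact h5 (mem_exits.2 ⟨⟨fun i h6 h7 => hs (ha.mem i h6 h7), ha.inj⟩, hcon⟩)
      rw [Tube.mem_dF] at htip
      obtain ⟨⟨_, g2, g3⟩, g4, g5⟩ := htip
      rcases Tube.dm_exit upd true hT hL hr h4 with ⟨_, h⟩ | ⟨_, h⟩ | ⟨hd, _⟩ | ⟨_, h⟩
      · omega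
      · omega
      · exact hd
      · omega
    · intro t ht _
      exact Tube.fb_nonneg arcA_zero (Tube.dm_wind upd true hT hL hr (Finset.mem_filter.1 ht).1)
  have h4 : ∑ t ∈ X, Tube.fb 0 t ≤ Tube.wS X := by
    unfold Tube.wS
    apply Finset.sum_le_sum
    intro t _
    unfold Tube.fb
    have := mul_le_mul_of_nonneg_right (Real.cos_le_one (wind t * (Real.pi / 8) + 0)) (pow_nonneg xc_pos.le t.length)
    linarith
  have h5 := lt_mir hT hL hr
  linarith

open Classical in
/-- K2: walks that go far. -/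
theorem lat_tail : ∃ C q : ℝ, 0 < C ∧ 0 < q ∧ q < 1 ∧ ∀ T A B r : ℕ, 1 ≤ T → 1 ≤ A → 1 ≤ B → 1 ≤ r →
    ∑ t ∈ (exits (Par T A B) oo up).filter (Far r), cw t ≤ C * q ^ (r / T) := by
  obtain ⟨C, q, hC, hq, hq1, hg⟩ := gate_bound
  refine ⟨2 * C, q, by positivity, hq, hq1, ?_⟩
  intro T A B r hT hA hB hr
  have hb : ∀ (k : Bool) (L : ℕ), 1 ≤ L → Tube.wS (Tube.gE upd oo k T L r) ≤ C * q ^ (r / T) := by
    intro k L hL
    refine (hg k T L r hT hL hr).trans ?_
    have h1 := uu_le_one (min r T)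
    have h2 : 0 < q ^ (r / T) := pow_pos hq _
    have h3 : C * uu (min r T) ≤ C * 1 := mul_le_mul_of_nonneg_left h1 hC.le
    rw [mul_one] at h3
    exact mul_le_mul_of_nonneg_right h3 h2.le
  have hnn : ∀ t ∈ exits (Par T A B) oo up, 0 ≤ Tube.fb 0 t := by
    intro t ht
    exact Tube.fb_nonneg arcA_zero (Tube.dm_wind upd true hT hA hB ht)
  have hq0 : 0 ≤ C * q ^ (r / T) := by positivity
  have hR : ∑ t ∈ (exits (Par T A B) oo up).filter (fun t =>
      ∃ i, 1 ≤ i ∧ i ≤ t.length ∧ (3 * r - 1 : ℤ) ≤ nn (vx oo up t i)), Tube.fb 0 t ≤ C * q ^ (r / T) := by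
    rcases Nat.lt_or_ge B r with h | h
    · rw [Finset.sum_eq_zero]
      · exact hq0
      · intro t ht
        exfalso
        obtain ⟨h3, i, h4, h5, h6⟩ := Finset.mem_filter.1 ht
        have h8 := (mem_exits.1 h3).1.mem i h4 h5
        rw [arcA_par] at h8
        have h9 := h8.2.2.2.2
        unfold nn at h6
        omega
    · exact (lt_R hT hA hr h).trans (hb true A hA)
  have hL : ∑ t ∈ (exits (Par T A B) oo up).filter (fun t =>
      ∃ i, 1 ≤ i ∧ i ≤ t.length ∧ nn (vx oo up t i) ≤ -(3 * r : ℤ)), Tube.fb 0 t ≤ C * q ^ (r / T) := by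
    rcases Nat.lt_or_ge A r with h | h
    · rw [Finset.sum_eq_zero]
      · exact hq0
      · intro t ht
        exfalso
        obtain ⟨h3, i, h4, h5, h6⟩ := Finset.mem_filter.1 ht
        have h8 := (mem_exits.1 h3).1.mem i h4 h5
        rw [arcA_par] at h8
        have h9 := h8.2.2.2.1
        unfold nn at h6
        omega
    · exact (lt_L hT hr hB h).trans (hb false _ (by omega))
  have hsub : (exits (Par T A B) oo up).filter (Far r) ⊆ (exits (Par T A B) oo up).filter (fun t =>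
      ∃ i, 1 ≤ i ∧ i ≤ t.length ∧ (3 * r - 1 : ℤ) ≤ nn (vx oo up t i)) ∪ (exits (Par T A B) oo up).filter (fun t =>
      ∃ i, 1 ≤ i ∧ i ≤ t.length ∧ nn (vx oo up t i) ≤ -(3 * r : ℤ)) := by
    intro t ht
    obtain ⟨h3, i, h4, h5, h6⟩ := Finset.mem_filter.1 ht
    rw [Finset.mem_union, Finset.mem_filter, Finset.mem_filter]
    rcases h6 with h6 | h6
    · exact Or.inl ⟨h3, i, h4, h5, h6⟩
    · exact Or.inr ⟨h3, i, h4, h5, h6⟩
  calc ∑ t ∈ (exits (Par T A B) oo up).filter (Far r), cw t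
      = ∑ t ∈ (exits (Par T A B) oo up).filter (Far r), Tube.fb 0 t :=
        Finset.sum_congr rfl (fun t _ => lt_cw t)
    _ ≤ ∑ t ∈ (exits (Par T A B) oo up).filter (fun t =>
      ∃ i, 1 ≤ i ∧ i ≤ t.length ∧ (3 * r - 1 : ℤ) ≤ nn (vx oo up t i)) ∪ (exits (Par T A B) oo up).filter (fun t =>
      ∃ i, 1 ≤ i ∧ i ≤ t.length ∧ nn (vx oo up t i) ≤ -(3 * r : ℤ)), Tube.fb 0 t := by
        apply Finset.sum_le_sum_of_subset_of_nonneg hsub
        intro t ht _
        rw [Finset.mem_union, Finset.mem_filter, Finset.mem_filter] at ht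
        rcases ht with ht | ht
        · exact hnn t ht.1
        · exact hnn t ht.1
    _ ≤ ∑ t ∈ (exits (Par T A B) oo up).filter (fun t =>
      ∃ i, 1 ≤ i ∧ i ≤ t.length ∧ (3 * r - 1 : ℤ) ≤ nn (vx oo up t i)), Tube.fb 0 t +
        ∑ t ∈ (exits (Par T A B) oo up).filter (fun t =>
      ∃ i, 1 ≤ i ∧ i ≤ t.length ∧ nn (vx oo up t i) ≤ -(3 * r : ℤ)), Tube.fb 0 t := by
        rw [← Finset.sum_union_inter]
        have h5 : 0 ≤ ∑ t ∈ (exits (Par T A B) oo up).filter (fun t =>
          ∃ i, 1 ≤ i ∧ i ≤ t.length ∧ (3 * r - 1 : ℤ) ≤ nn (vx oo up t i)) ∩ (exits (Par T A B) oo up).filter (fun t =>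
          ∃ i, 1 ≤ i ∧ i ≤ t.length ∧ nn (vx oo up t i) ≤ -(3 * r : ℤ)), Tube.fb 0 t := by
          apply Finset.sum_nonneg
          intro t ht
          rw [Finset.mem_inter, Finset.mem_filter] at ht
          exact hnn t ht.1.1
        linarith
    _ ≤ 2 * C * q ^ (r / T) := by linarith

end CMP

end HexObs
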