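import Mathlib

/-!
COMPRESSION, K7a: choice of the logarithmic parameters (helper39).
-/

set_option autoImplicit false

namespace HexObs

namespace CMP

lemma poly_geom {s : ℝ} (hs : 0 < s) (hs1 : s < 1) (d : ℕ) : ∃ B : ℝ, 0 < B ∧ ∀ k : ℕ, ((k : ℝ) + 1) ^ d * s ^ k ≤ B := by
  have h1 := tendsto_pow_const_mul_const_pow_of_abs_lt_one d (r := s) (by rw [abs_of_pos hs]; exact hs1)
  have h2 := (h1.comp (Filter.tendsto_add_atTop_nat 1)).bddAbove_range
  obtain ⟨B, hB⟩ := h2
  have h3 : ∀ k : ℕ, ((k : ℝ) + 1) ^ d * s ^ k ≤ B / s := by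
    intro k
    have h4 := hB ⟨k, rfl⟩
    simp only [Function.comp] at h4
    push_cast at h4
    rw [le_div_iff₀ hs, mul_assoc, ← pow_succ]
    exact h4
  refine ⟨max (B / s) 1, lt_max_of_lt_right one_pos, fun k => (h3 k).trans (le_max_left _ _)⟩

/-- k of order log x with A x ^ d (k + 1) ^ d r ^ k ≤ 1 / 2. -/
lemma choose_k {A r : ℝ} (hA : 0 < A) (hr : 0 < r) (hr1 : r < 1) (d : ℕ) : ∃ K : ℝ, 0 < K ∧ ∀ x : ℝ, 1 ≤ x →
    ∃ k : ℕ, 1 ≤ k ∧ (k : ℝ) ≤ K * (1 + Real.log x) ∧ A * x ^ d * ((k : ℝ) + 1) ^ d * r ^ k ≤ 1 / 2 := by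
  set s := Real.sqrt r with hs
  have hs0 : 0 < s := Real.sqrt_pos.2 hr
  have hs1 : s < 1 := by
    rw [hs, Real.sqrt_lt' one_pos]
    simpa using hr1
  have hss : s * s = r := Real.mul_self_sqrt hr.le
  obtain ⟨B, hB0, hB⟩ := poly_geom hs0 hs1 d
  have hl : 0 < -Real.log s := neg_pos.2 (Real.log_neg hs0 hs1)
  have hAB : 0 < 2 * A * B := by positivity
  set c := Real.log (2 * A * B + 1) with hc
  have hc0 : 0 < c := Real.log_pos (by linarith)
  refine ⟨(c + d) / (-Real.log s) + 2, by positivity, ?_⟩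
  intro x hx
  have hlx : 0 ≤ Real.log x := Real.log_nonneg hx
  have hx0 : 0 < x := by linarith
  refine ⟨⌈(c + d * Real.log x) / (-Real.log s)⌉₊ + 1, by omega, ?_, ?_⟩
  · have h1 : (⌈(c + d * Real.log x) / (-Real.log s)⌉₊ : ℝ) < (c + d * Real.log x) / (-Real.log s) + 1 :=
      Nat.ceil_lt_add_one (by positivity)
    have h2 : (c + d * Real.log x) / (-Real.log s) ≤ (c + d) / (-Real.log s) * (1 + Real.log x) := by
      rw [div_mul_eq_mul_div]
      apply div_le_div_of_nonneg_right _ hl.le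
      have : 0 ≤ c * Real.log x := by positivity
      have : (0 : ℝ) ≤ d := by positivity
      nlinarith
    push_cast
    nlinarith
  · set k := ⌈(c + d * Real.log x) / (-Real.log s)⌉₊ + 1 with hk
    have h1 : (c + d * Real.log x) / (-Real.log s) ≤ k := by
      have := Nat.le_ceil ((c + d * Real.log x) / (-Real.log s))
      rw [hk]
      push_cast
      linarith
    rw [div_le_iff₀ hl] at h1
    have h2 : s ^ k ≤ ((2 * A * B + 1) * x ^ d)⁻¹ := by
      have e1 : s ^ k = Real.exp (k * Real.log s) := by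
        rw [mul_comm, Real.exp_mul, Real.exp_log hs0, Real.rpow_natCast]
      have e2 : ((2 * A * B + 1) * x ^ d)⁻¹ = Real.exp (-(c + d * Real.log x)) := by
        rw [Real.exp_neg, Real.exp_add, hc, Real.exp_log (by linarith), mul_comm (d : ℝ), Real.exp_mul, Real.exp_log hx0,
          Real.rpow_natCast]
      rw [e1, e2]
      apply Real.exp_le_exp.2
      linarith
    have h3 : r ^ k = s ^ k * s ^ k := by rw [← hss, mul_pow]
    have h4 := hB k
    have h5 : 0 < s ^ k := pow_pos hs0 k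
    have hxd : 0 < x ^ d := pow_pos hx0 d
    calc A * x ^ d * ((k : ℝ) + 1) ^ d * r ^ k = A * x ^ d * (((k : ℝ) + 1) ^ d * s ^ k) * s ^ k := by rw [h3]; ring
      _ ≤ A * x ^ d * B * s ^ k := by
          apply mul_le_mul_of_nonneg_right _ h5.le
          exact mul_le_mul_of_nonneg_left h4 (by positivity)
      _ ≤ A * x ^ d * B * ((2 * A * B + 1) * x ^ d)⁻¹ := mul_le_mul_of_nonneg_left h2 (by positivity)
      _ = A * B / (2 * A * B + 1) := by
          field_simp
      _ ≤ 1 / 2 := by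
          rw [div_le_div_iff₀ (by linarith) (by norm_num)]
          linarith

end CMP

end HexObs
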