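import Pool.Agent.CMP.Defs

/-!
COMPRESSION, K3b: pigeonhole for the lengths (helper70).
-/

set_option autoImplicit false

namespace HexObs

namespace CMP

open LP Complex Finset

private lemma pg_sum (N : ℕ) : ∑ m ∈ range (N + 1), (1 : ℝ) / ((m : ℝ) + 1) ^ 2 ≤ 2 - 1 / ((N : ℝ) + 1) := by
  induction N with
  | zero => norm_num
  | succ N ih =>
    rw [Finset.sum_range_succ]
    have h1 : (0 : ℝ) < (N : ℝ) + 1 := by positivity
    have h2 : (0 : ℝ) < (N : ℝ) + 2 := by positivity
    have key : (1 : ℝ) / (((N + 1 : ℕ) : ℝ) + 1) ^ 2 ≤ 1 / ((N : ℝ) + 1) - 1 / (((N + 1 : ℕ) : ℝ) + 1) := by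
      push_cast
      have e : (N : ℝ) + 1 + 1 = N + 2 := by ring
      rw [e]
      have e2 : (1 : ℝ) / ((N : ℝ) + 1) - 1 / ((N : ℝ) + 2) = 1 / (((N : ℝ) + 1) * ((N : ℝ) + 2)) := by
        field_simp
        ring
      rw [e2]
      apply one_div_le_one_div_of_le (by positivity)
      nlinarith
    linarith

/-- the sum over the positive numbers of a finite set. -/
private lemma pg_fin (s : Finset ℕ) : ∑ m ∈ s, (if 1 ≤ m then (1 : ℝ) / (2 * (m : ℝ) ^ 2) else 0) < 1 := by
  have h1 : ∑ m ∈ s, (if 1 ≤ m then (1 : ℝ) / (2 * (m : ℝ) ^ 2) else 0) ≤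
      ∑ m ∈ range (s.sup id + 1 + 1), (if 1 ≤ m then (1 : ℝ) / (2 * (m : ℝ) ^ 2) else 0) := by
    apply Finset.sum_le_sum_of_subset_of_nonneg
    · intro m hm
      have : m ≤ s.sup id := Finset.le_sup (f := id) hm
      exact Finset.mem_range.2 (by omega)
    · intro m _ _
      split_ifs
      · positivity
      · exact le_refl _
  rw [Finset.sum_range_succ'] at h1
  have h2 := pg_sum (s.sup id)
  have h3 : (0 : ℝ) < 1 / (((s.sup id : ℕ) : ℝ) + 1) := by positivity
  have h4 : ∑ m ∈ range (s.sup id + 1), (if 1 ≤ m + 1 then (1 : ℝ) / (2 * (((m + 1 : ℕ) : ℕ) : ℝ) ^ 2) else 0) =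
      (1 / 2) * ∑ m ∈ range (s.sup id + 1), (1 : ℝ) / ((m : ℝ) + 1) ^ 2 := by
    rw [Finset.mul_sum]
    apply Finset.sum_congr rfl
    intro m _
    rw [if_pos (by omega)]
    push_cast
    rw [one_div_mul_one_div]
  rw [h4, if_neg (by omega)] at h1
  linarith

open Classical in
/-- K3b: pigeonhole. -/
theorem pigeon {W : Finset (List Bool)} {w : List Bool → ℝ} (h0 : ∀ t ∈ W, 0 ≤ w t) (h1 : ∀ t ∈ W, w t ≤ xc ^ t.length)
    {U L : ℝ} (hU : ∑ t ∈ W, w t ≤ U) (hU0 : 0 < U) (hL : 2 ≤ L) (hS : L ≤ ∑ t ∈ W, w t * t.length) :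
    ∃ m : ℕ, L / (2 * U) ≤ m ∧ 1 ≤ m ∧
      1 ≤ 2 * (m : ℝ) ^ 3 * (xc ^ m * ((W.filter (fun t => t.length = m)).card : ℝ)) := by
  by_contra hcon
  push Not at hcon
  have h2 : ∑ t ∈ W, w t * t.length = ∑ t ∈ W.filter (fun t => L / (2 * U) ≤ t.length), w t * t.length +
      ∑ t ∈ W.filter (fun t => ¬ L / (2 * U) ≤ t.length), w t * t.length :=
    (Finset.sum_filter_add_sum_filter_not W _ _).symm
  have h3 : ∑ t ∈ W.filter (fun t => ¬ L / (2 * U) ≤ t.length), w t * t.length ≤ L / 2 := by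
    have h4 : ∑ t ∈ W.filter (fun t => ¬ L / (2 * U) ≤ t.length), w t * t.length ≤
        ∑ t ∈ W.filter (fun t => ¬ L / (2 * U) ≤ t.length), w t * (L / (2 * U)) := by
      apply Finset.sum_le_sum
      intro t ht
      rw [Finset.mem_filter] at ht
      apply mul_le_mul_of_nonneg_left _ (h0 t ht.1)
      exact (not_le.1 ht.2).le
    have h5 : ∑ t ∈ W.filter (fun t => ¬ L / (2 * U) ≤ t.length), w t ≤ ∑ t ∈ W, w t := by
      apply Finset.sum_le_sum_of_subset_of_nonneg (Finset.filter_subset _ _)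
      intro t ht _
      exact h0 t ht
    rw [← Finset.sum_mul] at h4
    have h6 : 0 ≤ L / (2 * U) := by positivity
    have h7 : (∑ t ∈ W.filter (fun t => ¬ L / (2 * U) ≤ t.length), w t) * (L / (2 * U)) ≤ U * (L / (2 * U)) :=
      mul_le_mul_of_nonneg_right (h5.trans hU) h6
    have h8 : U * (L / (2 * U)) = L / 2 := by
      field_simp
    linarith
  have h4 : L / 2 ≤ ∑ t ∈ W.filter (fun t => L / (2 * U) ≤ t.length), w t * t.length := by linarith
  set V := W.filter (fun t : List Bool => L / (2 * U) ≤ t.length) with hV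
  have h5 : ∑ t ∈ V, w t * t.length = ∑ m ∈ V.image List.length, ∑ t ∈ V.filter (fun t => t.length = m),
      w t * t.length := by
    rw [Finset.sum_fiberwise_of_maps_to]
    intro t ht
    exact Finset.mem_image_of_mem _ ht
  have h6 : ∀ m ∈ V.image List.length, ∑ t ∈ V.filter (fun t => t.length = m), w t * t.length ≤
      if 1 ≤ m then (1 : ℝ) / (2 * (m : ℝ) ^ 2) else 0 := by
    intro m hm
    obtain ⟨t0, ht0, hm0⟩ := Finset.mem_image.1 hm
    have hm1 : L / (2 * U) ≤ m := by
      rw [← hm0]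
      exact (Finset.mem_filter.1 ht0).2
    split_ifs with hm2
    · have h7 := hcon m hm1 hm2
      have hmp : (0 : ℝ) < m := by exact_mod_cast hm2
      have h8 : ∑ t ∈ V.filter (fun t => t.length = m), w t * t.length ≤
          ∑ t ∈ V.filter (fun t => t.length = m), xc ^ m * m := by
        apply Finset.sum_le_sum
        intro t ht
        rw [Finset.mem_filter] at ht
        have h9 := h1 t (Finset.mem_filter.1 ht.1).1
        rw [ht.2] at h9 ⊢
        exact mul_le_mul_of_nonneg_right h9 hmp.le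
      rw [Finset.sum_const, nsmul_eq_mul] at h8
      have h9 : ((V.filter (fun t => t.length = m)).card : ℝ) ≤ ((W.filter (fun t => t.length = m)).card : ℝ) := by
        have : V.filter (fun t => t.length = m) ⊆ W.filter (fun t => t.length = m) := by
          intro t ht
          rw [Finset.mem_filter] at ht ⊢
          exact ⟨(Finset.mem_filter.1 ht.1).1, ht.2⟩
        exact_mod_cast Finset.card_le_card this
      have h10 : ((V.filter (fun t => t.length = m)).card : ℝ) * (xc ^ m * m) ≤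
          ((W.filter (fun t => t.length = m)).card : ℝ) * (xc ^ m * m) :=
        mul_le_mul_of_nonneg_right h9 (mul_nonneg (pow_nonneg xc_pos.le _) hmp.le)
      rw [le_div_iff₀ (by positivity)]
      have h11 : ((W.filter (fun t => t.length = m)).card : ℝ) * (xc ^ m * m) * (2 * (m : ℝ) ^ 2) =
          2 * (m : ℝ) ^ 3 * (xc ^ m * ((W.filter (fun t => t.length = m)).card : ℝ)) := by ring
      have h12 : (∑ t ∈ V.filter (fun t => t.length = m), w t * t.length) * (2 * (m : ℝ) ^ 2) ≤
          ((W.filter (fun t => t.length = m)).card : ℝ) * (xc ^ m * m) * (2 * (m : ℝ) ^ 2) :=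
        mul_le_mul_of_nonneg_right (h8.trans h10) (by positivity)
      linarith
    · have hm3 : m = 0 := by omega
      apply le_of_eq
      apply Finset.sum_eq_zero
      intro t ht
      rw [Finset.mem_filter] at ht
      rw [ht.2, hm3, Nat.cast_zero, mul_zero]
  have h7 := Finset.sum_le_sum h6
  have h8 := pg_fin (V.image List.length)
  linarith

end CMP

end HexObs
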