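import Pool.Agent.CMP.Defs
import Pool.Agent.PHW8.Final8b
import Pool.Agent.PHW.Dict

/-!
COMPRESSION, module K5: number of the words of bounded diameter (submultiplicative, polynomial growth, shorter words).
(helper76)
-/

set_option autoImplicit false

namespace HexObs

namespace CMP

open LP Complex Finset

lemma SD_fin (n : ℕ) (D : ℤ) : (SD n D).Finite :=
  (PHWDict.SawN_fin n).subset (fun _ ht => ht.1)

lemma vx_split (t : List Bool) (n i : ℕ) :
    vx oo up t (n + i) = vx (vx oo up t n) (dx up t n) (t.drop n) i := by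
  unfold vx dx
  rw [vs_shift]
  congr 1
  funext k
  unfold tf
  rw [List.getD_eq_getElem?_getD, List.getD_eq_getElem?_getD, List.getElem?_drop]

lemma dx_mem_dirs (t : List Bool) (i : ℕ) : dx up t i ∈ dirs := by
  induction i with
  | zero => exact upd
  | succ i ih =>
    show ds up (tf t) (i + 1) ∈ dirs
    rw [ds_succ, mem_dirs, nrm_turn]
    exact mem_dirs.1 ih

/-- the end of a word, seen from its first vertex. -/
lemma vx_drop (t : List Bool) (n : ℕ) : ∃ u : Pt, nrm u = 1 ∧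
    ∀ i, vx oo up (t.drop n) i = oo + mulE u (vx oo up t (n + i) - vx oo up t n) := by
  refine ⟨rotTo (dx up t n) up, nrm_rotTo (dx_mem_dirs t n) upd, fun i => ?_⟩
  rw [vx_split t n i, ← vx_mulE, rotTo_apply up (dx_mem_dirs t n)]

lemma SD_take {n m : ℕ} {D : ℤ} {t : List Bool} (ht : t ∈ SD (n + m) D) : t.take n ∈ SD n D := by
  obtain ⟨⟨hl, hs⟩, hD⟩ := ht
  have hl' : (t.take n).length = n := by
    rw [List.length_take, hl]
    omega
  have hv : ∀ i, i ≤ n → vx oo up (t.take n) i = vx oo up t i := by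
    intro i hi
    have := vx_append (v0 := oo) (d0 := up) (t := t.take n) (s := t.drop n) (i := i) (by omega)
    rw [List.take_append_drop] at this
    exact this.symm
  refine ⟨⟨hl', fun _ _ _ => trivial, ?_⟩, ?_⟩
  · intro i k hik hk
    rw [hv i (by omega), hv k (by omega)]
    exact hs.inj i k hik (by omega)
  · intro i k hi hk
    rw [hv i hi, hv k hk]
    exact hD i k (by omega) (by omega)

lemma SD_drop {n m : ℕ} {D : ℤ} {t : List Bool} (ht : t ∈ SD (n + m) D) : t.drop n ∈ SD m D := by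
  obtain ⟨⟨hl, hs⟩, hD⟩ := ht
  have hl' : (t.drop n).length = m := by
    rw [List.length_drop, hl]
    omega
  obtain ⟨u, hu, hv⟩ := vx_drop t n
  refine ⟨⟨hl', fun _ _ _ => trivial, ?_⟩, ?_⟩
  · intro i k hik hk he
    rw [hv i, hv k] at he
    have h1 := mulE_inj hu (add_left_cancel he)
    have h2 : vx oo up t (n + i) = vx oo up t (n + k) := by
      have := congrArg (· + vx oo up t n) h1
      simpa using this
    exact hs.inj (n + i) (n + k) (by omega) (by omega) h2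
  · intro i k hi hk
    rw [hv i, hv k]
    have h1 : oo + mulE u (vx oo up t (n + i) - vx oo up t n) - (oo + mulE u (vx oo up t (n + k) - vx oo up t n)) =
        mulE u (vx oo up t (n + i) - vx oo up t (n + k)) := by
      rw [add_sub_add_left_eq_sub, ← mulE_sub]
      congr 1
      abel
    rw [h1, nrm_mulE, hu, one_mul]
    exact hD (n + i) (n + k) (by omega) (by omega)

/-- K5a. -/
theorem sS_add (n m : ℕ) (D : ℤ) : sS (n + m) D ≤ sS n D * sS m D := by
  have h0 : sS n D * sS m D = (SD n D ×ˢ SD m D).ncard := Set.ncard_prod.symm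
  rw [h0]
  unfold sS
  refine Set.ncard_le_ncard_of_injOn (fun t => (t.take n, t.drop n)) ?_ ?_ ((SD_fin n D).prod (SD_fin m D))
  · intro t ht
    exact ⟨SD_take ht, SD_drop ht⟩
  · intro t _ t' _ he
    have h1 := congrArg Prod.fst he
    have h2 := congrArg Prod.snd he
    simp only at h1 h2
    rw [← List.take_append_drop n t, ← List.take_append_drop n t', h1, h2]

lemma sS_zero_le (D : ℤ) : sS 0 D ≤ 1 := by
  unfold sS
  have h1 : SD 0 D ⊆ {[]} := by
    intro t ht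
    exact List.length_eq_zero_iff.1 ht.1.1
  exact (Set.ncard_le_ncard h1 (Set.finite_singleton _)).trans (by rw [Set.ncard_singleton])

lemma sS_pow (n q : ℕ) (D : ℤ) : sS (q * n) D ≤ sS n D ^ q := by
  induction q with
  | zero =>
    rw [zero_mul, pow_zero]
    exact sS_zero_le D
  | succ q ih =>
    rw [show (q + 1) * n = q * n + n by ring, pow_succ]
    exact (sS_add _ _ D).trans (Nat.mul_le_mul_right _ ih)

lemma sS_le_cS (n : ℕ) (D : ℤ) : sS n D ≤ cS n :=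
  Set.ncard_le_ncard (fun _ ht => ht.1) (PHWDict.SawN_fin n)

/-- K5b. -/
theorem sS_poly : ∃ C : ℕ, 1 ≤ C ∧ ∀ (n : ℕ) (D : ℤ), xc ^ n * (sS n D : ℝ) ≤ C * ((n : ℝ) + 1) ^ C := by
  obtain ⟨C, hC1, hC⟩ := PHW_all
  have hmu : muB = 1 / xc := le_antisymm muB_le le_muB
  have hx := xc_pos
  refine ⟨⌈C⌉₊, Nat.one_le_ceil_iff.2 (by linarith), fun n D => ?_⟩
  have hCc : C ≤ (⌈C⌉₊ : ℝ) := Nat.le_ceil C
  have hC1' : (1 : ℝ) ≤ (⌈C⌉₊ : ℝ) := by linarith
  rcases Nat.eq_zero_or_pos n with h0 | h0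
  · subst h0
    have h1 : (sS 0 D : ℝ) ≤ 1 := by exact_mod_cast sS_zero_le D
    simp only [pow_zero, one_mul, Nat.cast_zero, zero_add, one_pow, mul_one]
    linarith
  · have h1 := hC n h0
    have h2 : (2 : ℝ) * aB n = 3 * cS n := by exact_mod_cast aB_eq h0
    have h7 : (sS n D : ℝ) ≤ cS n := by exact_mod_cast sS_le_cS n D
    rw [hmu, one_div, inv_pow] at h1
    have h3 : (aB n : ℝ) * xc ^ n ≤ C * (n : ℝ) ^ C := by
      have h4 := mul_le_mul_of_nonneg_right h1 (pow_nonneg hx.le n)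
      rw [mul_assoc, inv_mul_cancel₀ (pow_ne_zero n hx.ne'), mul_one] at h4
      exact h4
    have h5 : xc ^ n * (sS n D : ℝ) ≤ (aB n : ℝ) * xc ^ n := by
      rw [mul_comm]
      apply mul_le_mul_of_nonneg_right _ (pow_nonneg hx.le n)
      have h6 : (0 : ℝ) ≤ cS n := by positivity
      linarith
    have hn1 : (1 : ℝ) ≤ n := by exact_mod_cast h0
    have h8 : (n : ℝ) ^ C ≤ ((n : ℝ) + 1) ^ ⌈C⌉₊ := by
      rw [← Real.rpow_natCast]
      exact (Real.rpow_le_rpow_of_exponent_le hn1 hCc).trans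
        (Real.rpow_le_rpow (by linarith) (by linarith) (by linarith))
    calc xc ^ n * (sS n D : ℝ) ≤ C * (n : ℝ) ^ C := h5.trans h3
      _ ≤ (⌈C⌉₊ : ℝ) * ((n : ℝ) + 1) ^ ⌈C⌉₊ := mul_le_mul hCc h8 (by positivity) (by positivity)

/-- K5c. -/
theorem ww_sS {T h R m : ℕ} (hT : T ≤ R) (hR : 1 ≤ R) :
    ((WW T h R).filter (fun t => t.length = m)).card ≤ sS m (40 * (R : ℤ) ^ 2) := by
  unfold sS
  rw [← Set.ncard_coe_finset]
  apply Set.ncard_le_ncard _ (SD_fin _ _)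
  intro t ht
  rw [Finset.mem_coe, Finset.mem_filter] at ht
  obtain ⟨ht, hl⟩ := ht
  classical
  unfold WW at ht
  obtain ⟨ha, _⟩ := mem_exits.1 (Finset.mem_filter.1 ht).1
  have hT' : (T : ℤ) ≤ R := by exact_mod_cast hT
  have hR' : (1 : ℤ) ≤ R := by exact_mod_cast hR
  have hb : ∀ i, i ≤ m → 0 ≤ (vx oo up t i).1 + 2 * (vx oo up t i).2 ∧
      (vx oo up t i).1 + 2 * (vx oo up t i).2 ≤ 3 * R + 1 ∧ (vx oo up t i).2 - (vx oo up t i).1 < 3 * R ∧
      (vx oo up t i).1 - (vx oo up t i).2 < 3 * R - 1 := by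
    intro i hi
    rcases Nat.eq_zero_or_pos i with h0 | h0
    · subst h0
      have e1 : vx oo up t 0 = oo := rfl
      rw [e1]
      have e2 : oo = (0, 0) := rfl
      rw [e2]
      dsimp only
      omega
    · have h1 := ha.mem i h0 (by omega)
      rw [arcA_par] at h1
      obtain ⟨_, h2, h3, h4, h5⟩ := h1
      omega
  refine ⟨⟨hl, fun _ _ _ => trivial, ha.inj⟩, ?_⟩
  intro i k hi hk
  obtain ⟨a1, a2, a3, a4⟩ := hb i hi
  obtain ⟨b1, b2, b3, b4⟩ := hb k hk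
  unfold nrm
  rw [Prod.fst_sub, Prod.snd_sub]
  generalize (vx oo up t i).1 = x1 at *
  generalize (vx oo up t i).2 = x2 at *
  generalize (vx oo up t k).1 = y1 at *
  generalize (vx oo up t k).2 = y2 at *
  generalize (R : ℤ) = R at *
  set s := (x1 - y1) + 2 * (x2 - y2) with hs
  set w := (x1 - y1) - (x2 - y2) with hw
  have e1 : 3 * ((x1 - y1) ^ 2 + (x1 - y1) * (x2 - y2) + (x2 - y2) ^ 2) = s ^ 2 + s * w + w ^ 2 := by
    rw [hs, hw]
    ring
  have hs1 : |s| ≤ 3 * R + 1 := by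
    rw [abs_le]
    constructor <;> rw [hs] <;> linarith
  have hw1 : |w| ≤ 6 * R := by
    rw [abs_le]
    constructor <;> rw [hw] <;> linarith
  have e2 : s ^ 2 ≤ (3 * R + 1) ^ 2 := by
    rw [← sq_abs]
    exact pow_le_pow_left₀ (abs_nonneg _) hs1 2
  have e3 : w ^ 2 ≤ (6 * R) ^ 2 := by
    rw [← sq_abs]
    exact pow_le_pow_left₀ (abs_nonneg _) hw1 2
  have e4 : s * w ≤ (3 * R + 1) * (6 * R) := by
    refine (le_abs_self _).trans ?_
    rw [abs_mul]
    exact mul_le_mul hs1 hw1 (abs_nonneg _) (by linarith)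
  nlinarith

lemma cube_le_pow (q : ℕ) : (q : ℝ) ^ 3 ≤ 8 ^ q := by
  have h1 : (q : ℝ) ≤ 2 ^ q := by exact_mod_cast (Nat.lt_two_pow_self (n := q)).le
  calc (q : ℝ) ^ 3 ≤ (2 ^ q) ^ 3 := pow_le_pow_left₀ (by positivity) h1 3
    _ = 8 ^ q := by rw [← pow_mul, mul_comm, pow_mul]; norm_num

/-- K5d. -/
theorem shorter : ∃ C : ℕ, 1 ≤ C ∧ ∀ (n m : ℕ) (D : ℤ), 1 ≤ n → n ≤ m → 1 ≤ 2 * (m : ℝ) ^ 3 * (xc ^ m * (sS m D : ℝ)) →
    1 ≤ C * (n : ℝ) ^ C * (xc ^ n * (sS n D : ℝ)) := by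
  obtain ⟨C₀, hC₀, hp⟩ := sS_poly
  refine ⟨128 * C₀ + 3, by omega, fun n m D hn hnm h1 => ?_⟩
  have hx := xc_pos
  have hn' : (1 : ℝ) ≤ n := by exact_mod_cast hn
  have hC₀' : (1 : ℝ) ≤ C₀ := by exact_mod_cast hC₀
  set y := xc ^ n * (sS n D : ℝ) with hy
  have hy0 : 0 ≤ y := by positivity
  obtain ⟨q, r, hr, hm⟩ : ∃ q r, r < n ∧ m = q * n + r :=
    ⟨m / n, m % n, Nat.mod_lt _ hn, by rw [mul_comm]; exact (Nat.div_add_mod m n).symm⟩
  have hq : 1 ≤ q := by
    rcases Nat.eq_zero_or_pos q with h | h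
    · subst h
      omega
    · exact h
  have hq' : (1 : ℝ) ≤ q := by exact_mod_cast hq
  have h2 : xc ^ m * (sS m D : ℝ) ≤ y ^ q * (C₀ * (n : ℝ) ^ C₀) := by
    have h3 : (sS m D : ℝ) ≤ (sS n D : ℝ) ^ q * sS r D := by
      have : sS m D ≤ sS n D ^ q * sS r D := by
        rw [hm]
        exact (sS_add _ _ D).trans (Nat.mul_le_mul_right _ (sS_pow n q D))
      exact_mod_cast this
    have h4 : xc ^ r * (sS r D : ℝ) ≤ C₀ * (n : ℝ) ^ C₀ := by
      refine (hp r D).trans ?_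
      apply mul_le_mul_of_nonneg_left _ (by positivity)
      apply pow_le_pow_left₀ (by positivity)
      exact_mod_cast hr
    calc xc ^ m * (sS m D : ℝ) ≤ xc ^ m * ((sS n D : ℝ) ^ q * sS r D) :=
          mul_le_mul_of_nonneg_left h3 (by positivity)
      _ = y ^ q * (xc ^ r * (sS r D : ℝ)) := by
          rw [hm, pow_add, hy, mul_pow, ← pow_mul, mul_comm q n]
          ring
      _ ≤ y ^ q * (C₀ * (n : ℝ) ^ C₀) := mul_le_mul_of_nonneg_left h4 (by positivity)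
  have hm3 : (m : ℝ) ^ 3 ≤ 8 * (q : ℝ) ^ 3 * (n : ℝ) ^ 3 := by
    have h3 : (m : ℝ) ≤ 2 * q * n := by
      have : m ≤ 2 * q * n := by
        rw [hm]
        nlinarith
      exact_mod_cast this
    calc (m : ℝ) ^ 3 ≤ (2 * q * n) ^ 3 := pow_le_pow_left₀ (by positivity) h3 3
      _ = 8 * (q : ℝ) ^ 3 * (n : ℝ) ^ 3 := by ring
  obtain ⟨A, hA⟩ : ∃ A : ℝ, A = 16 * C₀ * (n : ℝ) ^ (C₀ + 3) := ⟨_, rfl⟩
  have hA1 : 1 ≤ A := by
    have h3 : (1 : ℝ) ≤ (n : ℝ) ^ (C₀ + 3) := one_le_pow₀ hn'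
    rw [hA]
    nlinarith
  have h5 : 1 ≤ A * (q : ℝ) ^ 3 * y ^ q := by
    refine h1.trans ?_
    calc 2 * (m : ℝ) ^ 3 * (xc ^ m * (sS m D : ℝ)) ≤ 2 * (8 * (q : ℝ) ^ 3 * (n : ℝ) ^ 3) *
          (y ^ q * (C₀ * (n : ℝ) ^ C₀)) := by
          apply mul_le_mul _ h2 (by positivity) (by positivity)
          linarith
      _ = A * (q : ℝ) ^ 3 * y ^ q := by
          rw [hA, pow_add]
          ring
  have h6 : 1 ≤ 8 * A * y := by
    by_contra hcon
    rw [not_le] at hcon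
    have h7 : (8 * A * y) ^ q < 1 := pow_lt_one₀ (by positivity) hcon (by omega)
    have h8 : A * (q : ℝ) ^ 3 * y ^ q ≤ (8 * A * y) ^ q := by
      have h9 : A ≤ A ^ q := le_self_pow₀ hA1 (by omega)
      calc A * (q : ℝ) ^ 3 * y ^ q ≤ A ^ q * 8 ^ q * y ^ q := by
            apply mul_le_mul_of_nonneg_right _ (by positivity)
            exact mul_le_mul h9 (cube_le_pow q) (by positivity) (by positivity)
        _ = (8 * A * y) ^ q := by
            rw [mul_pow, mul_pow]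
            ring
    linarith
  refine h6.trans ?_
  apply mul_le_mul_of_nonneg_right _ hy0
  rw [hA]
  have h10 : (n : ℝ) ^ (C₀ + 3) ≤ (n : ℝ) ^ (128 * C₀ + 3) := pow_le_pow_right₀ hn' (by omega)
  have h11 : (0 : ℝ) ≤ (n : ℝ) ^ (C₀ + 3) := by positivity
  push_cast
  nlinarith

end CMP

end HexObs
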