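import Pool.Agent.CMP.Defs

/-!
COMPRESSION, K3a: the walks that leave the strip of height h weigh at most uu h (helper70).
-/

set_option autoImplicit false

namespace HexObs

namespace CMP

open LP Complex Finset

open Classical in
/-- K3a: stopping at the line of height h. -/
theorem ww_le {T h R : ℕ} (hh : 1 ≤ h) (hT : h ≤ T) (hR : 1 ≤ R) : ∑ t ∈ WW T h R, cw t ≤ uu h := by
  have hT1 : 1 ≤ T := by omega
  set D : Finset Pt := (Par T R R).filter (fun v => ip (v - oo) up < 3 * h + 2) with hD
  have hhalf : ∀ v ∈ Par T R R, 0 < ip (v - oo) up := Tube.dF_half upd oo true T R R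
  have hDs : ∀ v ∈ D, v ∈ strip oo up h := by
    intro v hv
    rw [hD, Finset.mem_filter] at hv
    have h1 : v ∈ Tube.dF upd oo true T R R := hv.1
    rw [arcA_mem] at h1
    exact ⟨(arcA_hex v).2 h1.1, hhalf v hv.1, hv.2⟩
  have h1 := Tube.two_dom (Ω := Par T R R) (Ω' := D) upd hhalf (fun v hv => hhalf v (Finset.mem_of_mem_filter v hv)) 0
  have h2 : ∑ t ∈ WW T h R, cw t ≤ ∑ t ∈ exits (Par T R R) oo up \ exits D oo up, Tube.fb 0 t := by
    have e : ∑ t ∈ WW T h R, cw t = ∑ t ∈ WW T h R, Tube.fb 0 t := by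
      apply Finset.sum_congr rfl
      intro t _
      unfold cw Tube.fb
      rw [add_zero]
    rw [e]
    apply Finset.sum_le_sum_of_subset_of_nonneg
    · intro t ht
      unfold WW at ht
      rw [Finset.mem_filter] at ht
      obtain ⟨ht1, _, i, hi1, hi2, hi3⟩ := ht
      rw [Finset.mem_sdiff]
      refine ⟨ht1, fun h4 => ?_⟩
      have h5 := (mem_exits.1 h4).1.mem i hi1 hi2
      rw [hD, Finset.mem_filter] at h5
      have h6 := h5.2
      have h7 : vx oo up t i - oo = vx oo up t i := sub_zero _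
      rw [h7] at h6
      unfold lev at hi3
      omega
    · intro t ht _
      exact Tube.fb_nonneg arcA_zero (Tube.dm_wind upd true hT1 hR hR (Finset.mem_sdiff.1 ht).1)
  have h6 : ∑ t ∈ exits D oo up \ exits (Par T R R) oo up, Tube.fb 0 t ≤ uu h := by
    have hle : ∀ t : List Bool, Tube.fb 0 t ≤ xc ^ t.length := by
      intro t
      unfold Tube.fb
      have h1 := Real.cos_le_one (wind t * (Real.pi / 8) + 0)
      have h2 := pow_nonneg xc_pos.le t.length
      nlinarith
    refine le_trans (Finset.sum_le_sum (fun t _ => hle t)) ?_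
    have h7 : gf ((exits D oo up \ exits (Par T R R) oo up : Finset (List Bool)) : Set (List Bool)) ≤ BT h := by
      rw [← gf_B upd oo h]
      apply gf_mono
      intro t ht
      rw [Finset.mem_coe, Finset.mem_sdiff, mem_exits, mem_exits] at ht
      obtain ⟨⟨a1, a2⟩, a3⟩ := ht
      have a4 : IsArr (Par T R R) oo up t := ⟨fun i hi hl => Finset.mem_of_mem_filter _ (a1.mem i hi hl), a1.inj⟩
      have a5 : tip oo up t ∈ Par T R R := by
        by_contra hcon
        exact a3 ⟨a4, hcon⟩
      have a6 : ¬ ip (tip oo up t - oo) up < 3 * h + 2 := by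
        intro hcon
        exact a2 (Finset.mem_filter.2 ⟨a5, hcon⟩)
      have a7 : Saw (strip oo up h) oo up t := ⟨fun i hi hl => hDs _ (a1.mem i hi hl), a1.inj⟩
      have a8 : tip oo up t ∉ strip oo up h := fun hcon => a6 hcon.2.2
      refine ⟨a7, a8, ?_⟩
      rcases strip_exit upd hh a7 a8 with ⟨_, b⟩ | ⟨b, _⟩
      · exfalso
        rw [b] at a6
        apply a6
        positivity
      · exact b
    rw [gf_finset] at h7
    have h8 : BT h ≠ ⊤ := ne_top_of_le_ne_top ENNReal.one_ne_top (BT_le_one hh)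
    exact (ENNReal.ofReal_le_iff_le_toReal h8).1 h7
  calc _ ≤ _ := h2
    _ = _ := h1
    _ ≤ _ := h6

end CMP

end HexObs
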