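import Pool.Agent.CMP.MeanC
import Pool.Agent.CMP.WallsHit
import Pool.Agent.CMP.LatTail
import Pool.Agent.CMP.WWle
import Pool.Agent.CMP.Pigeon
import Pool.Agent.CMP.Short
import Pool.Agent.CMP.Ana

/-!
COMPRESSION, K7b: from the mean length to the uniform n-step ensemble (helper39).
-/

set_option autoImplicit false

namespace HexObs

namespace CMP

open LP Complex Finset

/-- compressed walks at one length m of order at least h ^ β. -/
def Comp (β : ℝ) : Prop := ∃ C : ℝ, 0 < C ∧ ∀ h : ℕ, 1 ≤ h → ∃ m : ℕ, 1 ≤ m ∧ (h : ℝ) ^ β ≤ C * m ∧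
  1 ≤ 2 * (m : ℝ) ^ 3 * (xc ^ m * (sS m ⌈C * (h : ℝ) ^ 2 * (1 + Real.log h) ^ 2⌉ : ℝ))

lemma SD_finite (n : ℕ) (D : ℤ) : (SD n D).Finite :=
  (List.finite_length_eq Bool n).subset (fun _ ht => ht.1.1)

lemma sS_mono (n : ℕ) {D D' : ℤ} (h : D ≤ D') : sS n D ≤ sS n D' :=
  Set.ncard_le_ncard (fun _ ht => ⟨ht.1, fun i k hi hk => (ht.2 i k hi hk).trans h⟩) (SD_finite n D')

theorem comp_of {a : ℝ} (hB : ∃ C : ℝ, 0 < C ∧ ∀ h : ℕ, 1 ≤ h → uu h ≤ C * (h : ℝ) ^ (-a)) : Comp (1 + a) := by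
  obtain ⟨C0, hC0, hB⟩ := hB
  obtain ⟨C1, q, hC1, hq, hq1, hmean⟩ := mean_ge_of walls_hit lat_tail
  obtain ⟨K, hK, hch⟩ := choose_k hC1 hq hq1 1
  refine ⟨max C0 (360 * K ^ 2), lt_max_of_lt_left hC0, ?_⟩
  intro h hh
  have hh1 : (1 : ℝ) ≤ h := by exact_mod_cast hh
  have hh0 : (0 : ℝ) < h := by linarith
  obtain ⟨M, hM1, hM2, hM3⟩ := hch h hh1
  have h1 := hmean h M hh hM1
  have hMh : 1 ≤ M * (3 * h) := Nat.mul_pos hM1 (by omega)
  have h2 : 2 * (h : ℝ) ≤ ∑ t ∈ WW (3 * h) h (M * (3 * h)), cw t * t.length := by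
    refine le_trans ?_ h1
    apply mul_le_mul_of_nonneg_right _ hh0.le
    rw [pow_one, pow_one] at hM3
    linarith
  have h3 : ∑ t ∈ WW (3 * h) h (M * (3 * h)), cw t ≤ uu h := ww_le hh (by omega) hMh
  have hu : 0 < uu h := uu_pos h
  have hnn : ∀ t ∈ WW (3 * h) h (M * (3 * h)), 0 ≤ cw t := by
    classical
    intro t ht
    unfold WW at ht
    rw [Finset.mem_filter] at ht
    have h := Tube.dm_wind upd true (by omega) hMh hMh ht.1
    apply cw_nn4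
    rw [abs_le]
    omega
  have hle : ∀ t : List Bool, cw t ≤ xc ^ t.length := by
    intro t
    unfold cw
    have h1 := Real.cos_le_one (wind t * (Real.pi / 8))
    have h2 := pow_nonneg xc_pos.le t.length
    nlinarith
  obtain ⟨m, hm1, hm2, hm3⟩ := pigeon hnn (fun t _ => hle t) h3 hu (by linarith : (2 : ℝ) ≤ 2 * h) h2
  refine ⟨m, hm2, ?_, ?_⟩
  · have h4 : (h : ℝ) / uu h ≤ m := by
      refine le_trans (le_of_eq ?_) hm1
      rw [mul_div_mul_left _ _ (by norm_num : (2 : ℝ) ≠ 0)]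
    rw [div_le_iff₀ hu] at h4
    have hpa : 0 < (h : ℝ) ^ a := Real.rpow_pos_of_pos hh0 a
    have h5 : (h : ℝ) ≤ m * (C0 * (h : ℝ) ^ (-a)) := h4.trans (mul_le_mul_of_nonneg_left (hB h hh) (by positivity))
    have h6 : (h : ℝ) ^ (1 + a) = h * (h : ℝ) ^ a := by rw [Real.rpow_add hh0, Real.rpow_one]
    have h7 : (h : ℝ) ^ (-a) * (h : ℝ) ^ a = 1 := by
      rw [← Real.rpow_add hh0, neg_add_cancel, Real.rpow_zero]
    rw [h6]
    calc (h : ℝ) * (h : ℝ) ^ a ≤ m * (C0 * (h : ℝ) ^ (-a)) * (h : ℝ) ^ a := mul_le_mul_of_nonneg_right h5 hpa.le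
      _ = C0 * m * ((h : ℝ) ^ (-a) * (h : ℝ) ^ a) := by ring
      _ = C0 * m := by rw [h7, mul_one]
      _ ≤ max C0 (360 * K ^ 2) * m := mul_le_mul_of_nonneg_right (le_max_left _ _) (Nat.cast_nonneg m)
  · refine hm3.trans ?_
    have h8 : ((WW (3 * h) h (M * (3 * h))).filter (fun t => t.length = m)).card ≤
        sS m ⌈max C0 (360 * K ^ 2) * (h : ℝ) ^ 2 * (1 + Real.log h) ^ 2⌉ := by
      refine (ww_sS (by nlinarith) hMh).trans (sS_mono m ?_)
      have h9 : ((40 * ((M * (3 * h) : ℕ) : ℤ) ^ 2 : ℤ) : ℝ) ≤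
          max C0 (360 * K ^ 2) * (h : ℝ) ^ 2 * (1 + Real.log h) ^ 2 := by
        have hM0 : (0 : ℝ) ≤ M := Nat.cast_nonneg M
        have hM4 : (M : ℝ) ^ 2 ≤ (K * (1 + Real.log h)) ^ 2 := pow_le_pow_left₀ hM0 hM2 2
        push_cast
        calc (40 : ℝ) * (M * (3 * h)) ^ 2 = 360 * h ^ 2 * M ^ 2 := by ring
          _ ≤ 360 * h ^ 2 * (K * (1 + Real.log h)) ^ 2 := mul_le_mul_of_nonneg_left hM4 (by positivity)
          _ = 360 * K ^ 2 * (h ^ 2 * (1 + Real.log h) ^ 2) := by ring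
          _ ≤ max C0 (360 * K ^ 2) * (h ^ 2 * (1 + Real.log h) ^ 2) :=
              mul_le_mul_of_nonneg_right (le_max_right _ _) (by positivity)
          _ = _ := by ring
      have h10 := h9.trans (Int.le_ceil _)
      exact_mod_cast h10
    have h11 : (((WW (3 * h) h (M * (3 * h))).filter (fun t => t.length = m)).card : ℝ) ≤
        sS m ⌈max C0 (360 * K ^ 2) * (h : ℝ) ^ 2 * (1 + Real.log h) ^ 2⌉ := by exact_mod_cast h8
    apply mul_le_mul_of_nonneg_left _ (by positivity)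
    exact mul_le_mul_of_nonneg_left h11 (pow_nonneg xc_pos.le m)

end CMP

end HexObs
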