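import Pool.Agent.CMP.Defs
import Pool.Agent.SDN.EncBall

/-!
COMPRESSION, K6: the dictionary with the encoding of the final statement.
-/

set_option autoImplicit false

namespace HexObs

namespace CMP

open LP Finset PHWDict

/-- the norm of a point. -/
lemma norm_phiTri_psi (q : Pt) : ‖SawNu.phiTri (HexMu.psi q)‖ ^ 2 = (nrm q : ℝ) := by
  rw [← Complex.normSq_eq_norm_sq, Complex.normSq_apply]
  simp only [SawNu.phiTri, AddMonoidHom.coe_mk, ZeroHom.coe_mk, HexMu.psi, nrm]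
  have h3 : Real.sqrt 3 * Real.sqrt 3 = 3 := Real.mul_self_sqrt (by norm_num)
  have e : (q.2 : ℝ) * (Real.sqrt 3 / 2) * ((q.2 : ℝ) * (Real.sqrt 3 / 2)) =
      (q.2 : ℝ) ^ 2 * (Real.sqrt 3 * Real.sqrt 3) / 4 := by ring
  rw [e, h3]
  push_cast
  ring

/-- words with n - 1 letters, self-avoiding, with squared diameter at most D. -/
def AD (n : ℕ) (D : ℤ) : Set (List Bool) :=
  {t | t ∈ AA n ∧ ∀ i k, i ≤ n → k ≤ n → nrm (vx oo up t i - vx oo up t k) ≤ D}

lemma sS_eq {n : ℕ} (hn : 1 ≤ n) (D : ℤ) : sS n D = 2 * (AD n D).ncard := by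
  have himg : SD n D = (fun p : List Bool × Bool => p.1 ++ [p.2]) '' (AD n D ×ˢ Set.univ) := by
    ext t
    constructor
    · rintro ⟨⟨h1, h2⟩, hD⟩
      have hne : t ≠ [] := by
        rintro rfl
        simp at h1
        omega
      have hl : t.dropLast.length + 1 = n := by
        rw [List.length_dropLast]
        omega
      have h3 : ∀ j, j ≤ n → vx oo up t.dropLast j = vx oo up t j := by
        intro j hj
        have := vx_append (v0 := oo) (d0 := up) (t := t.dropLast) (s := [t.getLast hne]) (i := j) (by omega)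
        rw [List.dropLast_append_getLast hne] at this
        exact this.symm
      refine ⟨(t.dropLast, t.getLast hne), ⟨⟨⟨?_, ?_⟩, ?_⟩, trivial⟩, List.dropLast_append_getLast hne⟩
      · exact hl
      · intro i k hik hk he
        have h4 : vx oo up t.dropLast i = vx oo up t.dropLast k := he
        rw [h3 i (by omega), h3 k hk] at h4
        exact h2.inj i k hik (by omega) h4
      · intro i k hi hk
        show nrm (vx oo up t.dropLast i - vx oo up t.dropLast k) ≤ D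
        rw [h3 i hi, h3 k hk]
        exact hD i k hi hk
    · rintro ⟨⟨t', b⟩, ⟨⟨⟨h1, h2⟩, hD⟩, _⟩, rfl⟩
      simp only at h1 h2 hD ⊢
      refine ⟨⟨by simpa using h1, ⟨fun _ _ _ => trivial, ?_⟩⟩, ?_⟩
      · intro i k hik hk
        have hk' : k ≤ t'.length + 1 := by simpa using hk
        rw [vx_append (by omega), vx_append hk']
        exact h2 i k hik (by omega)
      · intro i k hi hk
        rw [vx_append (by omega), vx_append (by omega)]
        exact hD i k hi hk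
  unfold sS
  rw [himg, Set.ncard_image_of_injective _ (by
    rintro ⟨a, b⟩ ⟨a', b'⟩ h
    simp only at h
    have h1 := List.append_inj' h rfl
    exact Prod.ext h1.1 (List.cons.inj h1.2).1), Set.ncard_prod, Set.ncard_univ]
  simp [mul_comm]

open Classical in
lemma AD_le {n : ℕ} {D : ℤ} {ρ : ℝ} (hρ : 0 ≤ ρ) (hD : (D : ℝ) ≤ ρ ^ 2) :
    3 * (AD n D).ncard ≤ ((SawNu.WS SawNu.hexL n).filter
      (fun l => ∀ i, i ≤ n → ‖SawNu.phiTri (SawNu.ps l i)‖ ≤ ρ)).card := by
  have hS3 : ((SawNu.hexL.S false : Finset (ℤ × ℤ)) : Set (ℤ × ℤ)).ncard = 3 := by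
    rw [Set.ncard_coe_finset]
    simp only [SawNu.hexL, cond_false]
    decide
  have hup : up ∈ dirs := by decide
  set g := fun p : (ℤ × ℤ) × List Bool => (HexMu.stepsOf (HexMu.phi p.1) p.2).map HexMu.psi with hg
  have hinj : Set.InjOn g (((SawNu.hexL.S false : Finset (ℤ × ℤ)) : Set (ℤ × ℤ)) ×ˢ AD n D) := by
    rintro ⟨s, t⟩ ⟨hs, _⟩ ⟨s', t'⟩ ⟨hs', _⟩ he
    simp only [Finset.mem_coe] at hs hs'
    simp only [hg] at he
    have h1 := HexMu.map_psi_inj he
    obtain ⟨l, hl⟩ := HexMu.stepsOf_head (HexMu.phi s) t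
    obtain ⟨l', hl'⟩ := HexMu.stepsOf_head (HexMu.phi s') t'
    have h2 : HexMu.phi s = HexMu.phi s' := by
      rw [hl, hl'] at h1
      exact (List.cons.inj h1).1
    have h3 : s = s' := by rw [← HexMu.psi_phi hs, ← HexMu.psi_phi hs', h2]
    subst h3
    rw [HexMu.stepsOf_inj (HexMu.phi_dirs hs) h1]
  have hc : 3 * (AD n D).ncard = (g '' (((SawNu.hexL.S false : Finset (ℤ × ℤ)) : Set (ℤ × ℤ)) ×ˢ AD n D)).ncard := by
    rw [Set.ncard_image_of_injOn hinj, Set.ncard_prod, hS3]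
  rw [hc, ← Set.ncard_coe_finset]
  apply Set.ncard_le_ncard _ (Finset.finite_toSet _)
  rintro _ ⟨⟨s, t⟩, ⟨hs, ⟨h1, h2⟩, h5⟩, rfl⟩
  simp only at hs h1 h2 h5
  rw [Finset.mem_coe] at hs
  have hd := HexMu.phi_dirs hs
  rw [Finset.mem_coe, Finset.mem_filter, SawNu.mem_WS]
  simp only [hg]
  refine ⟨⟨?_, HexMu.stepsOf_tw hd (by rw [HexMu.psi_phi hs]; exact hs) _, ?_⟩, ?_⟩
  · rw [List.length_map, HexMu.stepsOf_length]
    exact h1
  · intro i j hij hj he
    rw [List.length_map, HexMu.stepsOf_length] at hj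
    rw [HexMu.ps_map_psi, HexMu.ps_map_psi] at he
    have h3 := HexMu.psi_inj he
    have h4 := HexMu.ps_stepsOf oo (HexMu.phi s) t i (by omega)
    have h5 := HexMu.ps_stepsOf oo (HexMu.phi s) t j hj
    apply h2 i j hij (by omega)
    apply dist_rot hd hup oo oo
    rw [← h4, ← h5, h3]
  · intro i hi
    rw [HexMu.ps_map_psi]
    have h4 := HexMu.ps_stepsOf oo (HexMu.phi s) t i (by omega)
    have h0 : (oo : Pt) = 0 := rfl
    have h6 : HexMu.psi (SawNu.ps (HexMu.stepsOf (HexMu.phi s) t) i) = HexMu.psi (vx oo (HexMu.phi s) t i) := by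
      rw [← h4, h0, zero_add]
    rw [h6]
    have h7 := norm_phiTri_psi (vx oo (HexMu.phi s) t i)
    rw [← SDN.EncBall.nrm_vx hd] at h7
    have h8 := h5 i 0 hi (Nat.zero_le _)
    have h9 : vx oo up t 0 = 0 := rfl
    rw [h9, sub_zero] at h8
    have h10 : ((nrm (vx oo up t i) : ℤ) : ℝ) ≤ ρ ^ 2 := le_trans (by exact_mod_cast h8) hD
    rw [← h7] at h10
    exact (pow_le_pow_iff_left₀ (norm_nonneg _) hρ two_ne_zero).1 h10

open Classical in
/-- K6: the dictionary. -/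
theorem dict : ∃ K : ℝ, 0 < K ∧ ∀ f : ℕ → Fin 3 → ℂ,
      (∀ i a, f i a = (-1 : ℂ) ^ i * Complex.exp (2 * (Real.pi : ℂ) * Complex.I * ((a : ℕ) : ℂ) / 3)) →
      ∀ n : ℕ, 1 ≤ n → ∀ W : Finset (Fin n → Fin 3),
        W = (open scoped Classical in Finset.univ.filter (fun s : Fin n → Fin 3 => ∀ j₁ j₂ : Fin (n + 1),
          (∑ i ∈ Finset.univ.filter (fun i : Fin n => (i : ℕ) < (j₁ : ℕ)), f (i : ℕ) (s i)) =
          (∑ i ∈ Finset.univ.filter (fun i : Fin n => (i : ℕ) < (j₂ : ℕ)), f (i : ℕ) (s i)) →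
          j₁ = j₂)) →
        (2 : ℝ) * W.card = 3 * cS n ∧ ∀ (ρ : ℝ) (D : ℤ), 0 ≤ ρ → K * D ≤ ρ ^ 2 →
          (3 : ℝ) * sS n D ≤ 2 * ((open scoped Classical in W.filter (fun s => ∀ j : Fin (n + 1),
            ‖∑ i ∈ Finset.univ.filter (fun i : Fin n => (i : ℕ) < (j : ℕ)), f (i : ℕ) (s i)‖ ≤ ρ)).card : ℝ) := by
  refine ⟨1, one_pos, fun f hf' n hn W hW => ?_⟩
  have hf : ∀ i a, f i a = SawNu.encHex.φ (SawNu.encHex.st i.bodd a) := fun i a => by rw [hf', SawNu.hex_enc]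
  have hW' : W = Finset.univ.filter (fun s : Fin n → Fin 3 => SawNu.SAC f n s) := by
    rw [hW]
    ext s
    rw [Finset.mem_filter, Finset.mem_filter]
    exact Iff.rfl
  have hcard : W.card = (SawNu.WS SawNu.hexL n).card := by rw [hW', SawNu.encHex.bridge_card hf n]
  constructor
  · have h1 : 2 * W.card = 3 * cS n := by
      rw [hcard, WS_eq hn, cS_eq hn]
      ring
    exact_mod_cast h1
  · intro ρ D hρ hD
    rw [one_mul] at hD
    have h1 := AD_le (n := n) hρ hD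
    have h2 : ((SawNu.WS SawNu.hexL n).filter
        (fun l => ∀ i, i ≤ n → ‖SawNu.phiTri (SawNu.ps l i)‖ ≤ ρ)).card ≤
        (W.filter (fun s => ∀ j : Fin (n + 1),
            ‖∑ i ∈ Finset.univ.filter (fun i : Fin n => (i : ℕ) < (j : ℕ)), f (i : ℕ) (s i)‖ ≤ ρ)).card := by
      refine le_trans (Finset.card_le_card ?_) (Finset.card_image_le (f := SawNu.encHex.word))
      intro l hl
      rw [Finset.mem_filter, SawNu.mem_WS] at hl
      obtain ⟨⟨k1, k2, k3⟩, k4⟩ := hl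
      obtain ⟨s, hs⟩ := SawNu.encHex.word_surj k1 k2
      rw [Finset.mem_image]
      refine ⟨s, ?_, hs⟩
      rw [Finset.mem_filter, hW', Finset.mem_filter]
      refine ⟨⟨Finset.mem_univ _, (SawNu.encHex.word_sa s hf).mpr (by rw [hs]; exact k3)⟩, ?_⟩
      intro j
      rw [← SawNu.encHex.word_ps s hf, hs]
      exact k4 j (by omega)
    have h3 : 3 * sS n D ≤ 2 * (W.filter (fun s => ∀ j : Fin (n + 1),
            ‖∑ i ∈ Finset.univ.filter (fun i : Fin n => (i : ℕ) < (j : ℕ)), f (i : ℕ) (s i)‖ ≤ ρ)).card := by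
      rw [sS_eq hn]
      calc 3 * (2 * (AD n D).ncard) = 2 * (3 * (AD n D).ncard) := by ring
        _ ≤ _ := Nat.mul_le_mul_left 2 (h1.trans h2)
    exact_mod_cast h3

end CMP

end HexObs
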