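import Pool.Agent.CMP.PartsAB
import Pool.Agent.CMP.DictC

/-!
COMPRESSION, K7d: the theorem in the encoding of the problem, from a bound on the weight of the bridges (helper39).
-/

set_option autoImplicit false

open scoped Classical

namespace HexObs

namespace CMP

open LP Complex Finset

lemma xc_inv : xc⁻¹ = Real.sqrt (2 + Real.sqrt 2) := by
  unfold xc
  rw [Real.cos_pi_div_eight, one_div, inv_inv]
  ring

/-- radius and squared diameter. -/
lemma ceil_le {K C L : ℝ} (hK : 0 < K) (hC : 0 < C) {x : ℝ} (hx : 1 ≤ x) (hL : Real.log 2 ≤ L) (p : ℕ) :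
    K * ((⌈C * x ^ 2 * L ^ (2 * p)⌉ : ℤ) : ℝ) ≤ ((K + 1) * (C + 1) * (1 + 1 / Real.log 2) ^ p * x * L ^ p) ^ 2 := by
  have hlog2 : 0 < Real.log 2 := Real.log_pos (by norm_num)
  have hL0 : 0 < L := by linarith
  set b : ℝ := 1 + 1 / Real.log 2 with hb
  have hb1 : 1 ≤ b := by
    have : 0 < 1 / Real.log 2 := by positivity
    linarith
  have hbL : 1 ≤ b * L := by
    have h1 : 1 / Real.log 2 * Real.log 2 = 1 := one_div_mul_cancel hlog2.ne'
    have h2 : 1 / Real.log 2 * Real.log 2 ≤ 1 / Real.log 2 * L := mul_le_mul_of_nonneg_left hL (by positivity)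
    rw [hb, add_mul, one_mul]
    linarith
  have h1 : ((⌈C * x ^ 2 * L ^ (2 * p)⌉ : ℤ) : ℝ) < C * x ^ 2 * L ^ (2 * p) + 1 := Int.ceil_lt_add_one _
  have h2 : 1 ≤ x ^ 2 * (b ^ p * L ^ p) ^ 2 := by
    rw [← mul_pow]
    have h3 : 1 ≤ (b * L) ^ p := one_le_pow₀ hbL
    have h4 : 1 ≤ x * (b * L) ^ p := one_le_mul_of_one_le_of_one_le hx h3
    rw [← mul_pow]
    exact one_le_pow₀ h4
  have h3 : L ^ (2 * p) ≤ (b ^ p * L ^ p) ^ 2 := by
    rw [mul_pow, ← pow_mul, ← pow_mul, mul_comm p 2]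
    have : 1 ≤ b ^ (2 * p) := one_le_pow₀ hb1
    have h5 : 0 ≤ L ^ (2 * p) := by positivity
    nlinarith
  have h4 : C * x ^ 2 * L ^ (2 * p) + 1 ≤ (C + 1) * (x ^ 2 * (b ^ p * L ^ p) ^ 2) := by
    have h5 : C * x ^ 2 * L ^ (2 * p) ≤ C * x ^ 2 * (b ^ p * L ^ p) ^ 2 := mul_le_mul_of_nonneg_left h3 (by positivity)
    linarith
  have h5 : K * (C + 1) ≤ ((K + 1) * (C + 1)) ^ 2 := by
    have h6 : K * (C + 1) ≤ (K + 1) * (C + 1) := mul_le_mul_of_nonneg_right (by linarith) (by linarith)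
    have h7 : 1 ≤ (K + 1) * (C + 1) := one_le_mul_of_one_le_of_one_le (by linarith) (by linarith)
    nlinarith
  have h6 : 0 ≤ x ^ 2 * (b ^ p * L ^ p) ^ 2 := by positivity
  calc K * ((⌈C * x ^ 2 * L ^ (2 * p)⌉ : ℤ) : ℝ) ≤ K * ((C + 1) * (x ^ 2 * (b ^ p * L ^ p) ^ 2)) :=
        mul_le_mul_of_nonneg_left (h1.le.trans h4) hK.le
    _ = K * (C + 1) * (x ^ 2 * (b ^ p * L ^ p) ^ 2) := by ring
    _ ≤ ((K + 1) * (C + 1)) ^ 2 * (x ^ 2 * (b ^ p * L ^ p) ^ 2) := mul_le_mul_of_nonneg_right h5 h6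
    _ = _ := by ring

theorem final_of {a : ℝ} (ha : 0 ≤ a) (hB : ∃ C : ℝ, 0 < C ∧ ∀ h : ℕ, 1 ≤ h → bT h ≤ C * (h : ℝ) ^ (-a)) :
    ∃ C : ℝ, 0 < C ∧ ∀ f : ℕ → Fin 3 → ℂ,
      (∀ i a, f i a = (-1 : ℂ) ^ i * Complex.exp (2 * (Real.pi : ℂ) * Complex.I * ((a : ℕ) : ℂ) / 3)) →
      ∀ n : ℕ, 2 ≤ n → ∀ W : Finset (Fin n → Fin 3),
        W = Finset.univ.filter (fun s : Fin n → Fin 3 => ∀ j₁ j₂ : Fin (n + 1),
          (∑ i ∈ Finset.univ.filter (fun i : Fin n => (i : ℕ) < (j₁ : ℕ)), f (i : ℕ) (s i)) =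
          (∑ i ∈ Finset.univ.filter (fun i : Fin n => (i : ℕ) < (j₂ : ℕ)), f (i : ℕ) (s i)) →
          j₁ = j₂) →
        (W.card : ℝ) ≤ (n : ℝ) ^ C * ((W.filter (fun s => ∀ j : Fin (n + 1),
          ‖∑ i ∈ Finset.univ.filter (fun i : Fin n => (i : ℕ) < (j : ℕ)), f (i : ℕ) (s i)‖ ≤
            C * (n : ℝ) ^ (1 / (1 + a)) * Real.log n)).card : ℝ) ∧
        Real.sqrt (2 + Real.sqrt 2) ^ n ≤ ((W.filter (fun s => ∀ j : Fin (n + 1),
          ‖∑ i ∈ Finset.univ.filter (fun i : Fin n => (i : ℕ) < (j : ℕ)), f (i : ℕ) (s i)‖ ≤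
            C * (n : ℝ) ^ (1 / (1 + a)) * Real.log n ^ 2)).card : ℝ) := by
  have hcomp : Comp (1 + a) := comp_of hB
  obtain ⟨C1, d, hC1, hb⟩ := part_b (by linarith) hcomp
  obtain ⟨C2, hC2, ha2⟩ := part_a (by linarith) hcomp
  obtain ⟨K, hK, hd⟩ := dict
  obtain ⟨C3, hC31, hC3⟩ := PHW_all
  have hmu : muB = 1 / xc := le_antisymm muB_le le_muB
  have hlog2 : 0 < Real.log 2 := Real.log_pos (by norm_num)
  have hβ0 : 0 < 1 + a := by linarith
  set Cb : ℝ := (K + 1) * (C1 + 1) * (1 + 1 / Real.log 2) ^ 1 with hCb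
  set Ca : ℝ := (K + 1) * (C2 + 1) * (1 + 1 / Real.log 2) ^ 2 with hCa
  have hCb0 : 0 < Cb := by positivity
  have hCa0 : 0 < Ca := by positivity
  set E : ℝ := C3 + d + Real.logb 2 (C3 * C1 + 1) with hE
  refine ⟨max (max Cb Ca) (max E 1), lt_max_of_lt_left (lt_max_of_lt_left hCb0), ?_⟩
  intro f hf n hn W hW
  set C := max (max Cb Ca) (max E 1) with hC
  have hCb1 : Cb ≤ C := (le_max_left _ _).trans (le_max_left _ _)
  have hCa1 : Ca ≤ C := (le_max_right _ _).trans (le_max_left _ _)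
  have hE1 : E ≤ C := (le_max_left _ _).trans (le_max_right _ _)
  obtain ⟨hW1, hW2⟩ := hd f hf n (by omega) W hW
  have hn1 : (1 : ℝ) ≤ n := by exact_mod_cast (by omega : 1 ≤ n)
  have hn2 : (2 : ℝ) ≤ n := by exact_mod_cast hn
  have hn0 : (0 : ℝ) < n := by linarith
  have hL := log_two_le hn
  have hln : 0 < Real.log n := lt_of_lt_of_le hlog2 hL
  set x : ℝ := (n : ℝ) ^ (1 / (1 + a)) with hx
  have hx1 : 1 ≤ x := Real.one_le_rpow hn1 (by positivity)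
  have hx2 : (n : ℝ) ^ (2 / (1 + a)) = x ^ 2 := by
    rw [hx, ← Real.rpow_natCast, ← Real.rpow_mul hn0.le]
    congr 1
    push_cast
    ring
  have hxc := xc_pos
  have hxn := pow_pos hxc n
  have hB1 := hb n hn
  have hA1 := ha2 n hn
  constructor
  · have h1 := hW2 (C * x * Real.log n) (Db C1 (1 + a) n) (by positivity) (by
      have h2 := ceil_le hK hC1 hx1 hL 1
      rw [mul_one, pow_one] at h2
      unfold Db
      rw [hx2]
      refine h2.trans ?_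
      apply pow_le_pow_left₀ (by positivity)
      rw [pow_one]
      apply mul_le_mul_of_nonneg_right _ hln.le
      apply mul_le_mul_of_nonneg_right _ (by positivity)
      rw [hCb] at hCb1
      rw [pow_one] at hCb1
      exact hCb1)
    set F := ((W.filter (fun s => ∀ j : Fin (n + 1),
          ‖∑ i ∈ Finset.univ.filter (fun i : Fin n => (i : ℕ) < (j : ℕ)), f (i : ℕ) (s i)‖ ≤
            C * x * Real.log n)).card : ℝ) with hF
    have h3 : (2 : ℝ) * aB n = 3 * cS n := by exact_mod_cast aB_eq (n := n) (by omega)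
    have h4 : (W.card : ℝ) = aB n := by linarith
    have h5 := hC3 n (by omega)
    rw [hmu, one_div] at h5
    have h6 : (xc⁻¹) ^ n ≤ C1 * (n : ℝ) ^ d * F := by
      have h7 : xc⁻¹ ^ n = 1 / xc ^ n := by rw [inv_pow, one_div]
      rw [h7, div_le_iff₀ hxn]
      have h8 : (sS n (Db C1 (1 + a) n) : ℝ) ≤ F := by
        have : (0 : ℝ) ≤ sS n (Db C1 (1 + a) n) := Nat.cast_nonneg _
        linarith
      calc (1 : ℝ) ≤ C1 * (n : ℝ) ^ d * (xc ^ n * (sS n (Db C1 (1 + a) n) : ℝ)) := hB1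
        _ ≤ C1 * (n : ℝ) ^ d * (xc ^ n * F) :=
            mul_le_mul_of_nonneg_left (mul_le_mul_of_nonneg_left h8 hxn.le) (by positivity)
        _ = C1 * (n : ℝ) ^ d * F * xc ^ n := by ring
    have hF0 : 0 ≤ F := Nat.cast_nonneg _
    have h9 : C3 * C1 ≤ (n : ℝ) ^ Real.logb 2 (C3 * C1 + 1) := by
      have h10 : C3 * C1 + 1 = (2 : ℝ) ^ Real.logb 2 (C3 * C1 + 1) :=
        (Real.rpow_logb (by norm_num) (by norm_num) (by positivity)).symm
      have h11 : 0 ≤ Real.logb 2 (C3 * C1 + 1) := Real.logb_nonneg (by norm_num) (by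
        have : 0 < C3 * C1 := by positivity
        linarith)
      have h12 := Real.rpow_le_rpow (by norm_num : (0 : ℝ) ≤ 2) hn2 h11
      linarith
    have h13 : C3 * (n : ℝ) ^ C3 * (C1 * (n : ℝ) ^ d) ≤ (n : ℝ) ^ C := by
      calc C3 * (n : ℝ) ^ C3 * (C1 * (n : ℝ) ^ d) = (n : ℝ) ^ C3 * (n : ℝ) ^ (d : ℝ) * (C3 * C1) := by
            rw [Real.rpow_natCast]
            ring
        _ ≤ (n : ℝ) ^ C3 * (n : ℝ) ^ (d : ℝ) * (n : ℝ) ^ Real.logb 2 (C3 * C1 + 1) :=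
            mul_le_mul_of_nonneg_left h9 (by positivity)
        _ = (n : ℝ) ^ E := by
            rw [← Real.rpow_add hn0, ← Real.rpow_add hn0]
        _ ≤ (n : ℝ) ^ C := Real.rpow_le_rpow_of_exponent_le hn1 hE1
    rw [h4]
    calc (aB n : ℝ) ≤ C3 * (n : ℝ) ^ C3 * xc⁻¹ ^ n := h5
      _ ≤ C3 * (n : ℝ) ^ C3 * (C1 * (n : ℝ) ^ d * F) := mul_le_mul_of_nonneg_left h6 (by positivity)
      _ = C3 * (n : ℝ) ^ C3 * (C1 * (n : ℝ) ^ d) * F := by ring
      _ ≤ (n : ℝ) ^ C * F := mul_le_mul_of_nonneg_right h13 hF0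
  · have h1 := hW2 (C * x * Real.log n ^ 2) (Da C2 (1 + a) n) (by positivity) (by
      have h2 := ceil_le hK hC2 hx1 hL 2
      unfold Da
      rw [hx2]
      refine h2.trans ?_
      apply pow_le_pow_left₀ (by positivity)
      apply mul_le_mul_of_nonneg_right _ (by positivity)
      exact mul_le_mul_of_nonneg_right hCa1 (by positivity))
    rw [← xc_inv]
    have h7 : xc⁻¹ ^ n = 1 / xc ^ n := by rw [inv_pow, one_div]
    rw [h7, div_le_iff₀ hxn]
    have h8 := mul_le_mul_of_nonneg_left h1 hxn.le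
    linarith

end CMP

end HexObs
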