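import Pool.Agent.HexLoop.SDVertE

/-!
COMPRESSION, CM1: the weight of the walks through a vertex is at least 3 (helper39).
-/

set_option autoImplicit false

namespace HexObs

namespace LP

open Complex Finset

private lemma cm_ex0 {Ω : Finset Pt} {a : Pt × Pt} {t : List Bool} :
    t ∈ ex0 Ω a ↔ Arr0 Ω a t ∧ tp a t ∉ Ω := by
  unfold ex0
  rw [Finset.mem_filter, mem_arr0]

private lemma cm_dir : ∀ d ∈ dirs, ∀ d' ∈ dirs, cl d = cl (-d') → d ≠ -d' → ∃ c : Bool, turn c d' = d := by
  decide

private lemma cm_neg : ∀ d ∈ dirs, ∀ b : Bool, turn b d ≠ -d := by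
  decide

private lemma cm_cl : ∀ a b c : ZMod 3, a ≠ 1 → (b = 1 ∨ b = 2) → (c = 1 ∨ c = 2) → a + b ≠ 1 → a + c ≠ 1 → b = c := by
  decide

private lemma cm_cl2 {d : Pt} (h : d ∈ dirs) : cl d = 1 ∨ cl d = 2 := by
  revert d
  decide

/-- two edges at v. -/
private lemma cm_two {v d d' : Pt} (h : De (v, d)) (h' : De (v - d', d')) (hne : d ≠ -d') :
    ∃ c : Bool, turn c d' = d := by
  apply cm_dir d h.1 d' h'.1 _ hne
  have h1 := h.2.1
  have h2 := h.2.2
  have h3 := h'.2.1
  unfold Vt at h1 h2 h3
  simp only at h1 h2 h3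
  rw [cl_add] at h2
  rw [sub_eq_add_neg, cl_add] at h3
  exact cm_cl _ _ _ h1 (cm_cl2 h.1) (cm_cl2 (neg_mem_dirs h'.1)) h2 h3

/-- the polygon of a walk that comes back to v. -/
private noncomputable def cmE (v d : Pt) (t : List Bool) : Finset (Pt × Pt) :=
  (range (t.length + 1)).image (fun i => (vx v d t i, dx d t i))

private noncomputable def cmT (t : List Bool) (c : Bool) (i : ℕ) : Bool :=
  if i % (t.length + 1) = t.length then c else tf t (i % (t.length + 1))

private lemma cm_last {Ω : Finset Pt} {v : Pt} {d : Pt} (hd : De (v, d)) {t : List Bool}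
    (ht : t ∈ ex0 (Ω.erase v) (v, d)) (h : tp (v, d) t = v) : ∃ c : Bool, turn c (dx d t t.length) = d := by
  rw [cm_ex0] at ht
  have h1 : vx v d t t.length + dx d t t.length = v := h
  have h2 : vx v d t t.length = v - dx d t t.length := eq_sub_of_add_eq h1
  have h3 : De (vx v d t t.length, dx d t t.length) := de_vx hd t t.length
  have h4 : De (v - dx d t t.length, dx d t t.length) := by
    rw [← h2]
    exact h3
  apply cm_two hd h4
  intro h5
  rcases Nat.eq_zero_or_pos t.length with h0 | h0
  · rw [h0] at h5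
    have h6 : dx d t 0 = d := rfl
    rw [h6] at h5
    have : ∀ e ∈ dirs, e ≠ -e := by decide
    exact this d hd.1 h5
  · have h6 : vx v d t t.length = vx v d t 1 := by
      rw [h2]
      show v - dx d t t.length = v + d
      nth_rw 2 [h5]
      abel
    rcases Nat.lt_or_ge 1 t.length with h7 | h7
    · exact ht.1.inj 1 t.length le_rfl h7 le_rfl h6.symm
    · have h8 : t.length = 1 := by omega
      rw [h8] at h5
      have h9 : dx d t 1 = turn (tf t 0) d := rfl
      rw [h9] at h5
      exact cm_neg d hd.1 (tf t 0) (neg_eq_iff_eq_neg.1 h5.symm)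

private lemma cm_tau {t : List Bool} {c : Bool} {i : ℕ} (h : i < t.length) : cmT t c i = tf t i := by
  unfold cmT
  rw [Nat.mod_eq_of_lt (by omega), if_neg (by omega)]

private lemma cm_tauc {t : List Bool} {c : Bool} : cmT t c t.length = c := by
  unfold cmT
  rw [Nat.mod_eq_of_lt (by omega), if_pos rfl]

private lemma cm_ds {d : Pt} {t : List Bool} {c : Bool} {i : ℕ} (h : i ≤ t.length) :
    ds d (cmT t c) i = dx d t i := by
  unfold dx
  apply ds_congr
  intro k hk
  exact cm_tau (by omega)

private lemma cm_vs {v d : Pt} {t : List Bool} {c : Bool} {i : ℕ} (h : i ≤ t.length + 1) :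
    vs v d (cmT t c) i = vx v d t i := by
  unfold vx
  apply vs_congr
  intro k hk
  exact cm_tau (by omega)

private lemma cm_poly {Ω : Finset Pt} {v : Pt} {d : Pt} (hd : De (v, d)) {t : List Bool}
    (ht : t ∈ ex0 (Ω.erase v) (v, d)) (h : tp (v, d) t = v) {c : Bool} (hc : turn c (dx d t t.length) = d) :
    Poly v d (cmT t c) (t.length + 1) ∧ cmE v d t = pe v d (cmT t c) (t.length + 1) := by
  rw [cm_ex0] at ht
  refine ⟨⟨by omega, hd, ?_, ?_, ?_, ?_⟩, ?_⟩
  · intro i
    unfold cmT
    rw [Nat.add_mod_right]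
  · rw [cm_vs le_rfl]
    exact h
  · have h1 : ds d (cmT t c) (t.length + 1) = turn (cmT t c t.length) (ds d (cmT t c) t.length) := rfl
    rw [h1, cm_tauc, cm_ds le_rfl, hc]
  · intro i k hik hk
    rw [cm_vs (by omega), cm_vs (by omega)]
    rcases Nat.eq_zero_or_pos i with hi | hi
    · subst hi
      intro h2
      have h3 : vx v d t 0 = v := rfl
      rw [h3] at h2
      have h4 := ht.1.mem k (by omega) (by omega)
      exact (Finset.mem_erase.1 h4).1 h2.symm
    · exact ht.1.inj i k hi hik (by omega)
  · unfold cmE pe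
    apply Finset.image_congr
    intro i hi
    rw [Finset.mem_coe, Finset.mem_range] at hi
    show (vx v d t i, dx d t i) = (vs v d (cmT t c) i, ds d (cmT t c) i)
    rw [cm_vs (by omega), cm_ds (by omega)]

private lemma cm_cos5 : Real.cos (5 * (Real.pi / 8)) ≤ 0 := by
  apply Real.cos_nonpos_of_pi_div_two_le_of_le <;> linarith [Real.pi_pos]

private lemma cm_cos7 : Real.cos (7 * (Real.pi / 8)) ≤ 0 := by
  apply Real.cos_nonpos_of_pi_div_two_le_of_le <;> linarith [Real.pi_pos]

/-- the walks that come back to v have a negative weight. -/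
theorem ret_nonpos {Ω : Finset Pt} {v : Pt} {d : Pt} (hd : De (v, d)) {t : List Bool}
    (ht : t ∈ ex0 (Ω.erase v) (v, d)) (h : tp (v, d) t = v) : (wt t).re ≤ 0 := by
  obtain ⟨c, hc⟩ := cm_last hd ht h
  obtain ⟨hP, hE⟩ := cm_poly hd ht h hc
  have hPo : IsPoly (cmE v d t) := ⟨_, _, _, _, hP, hE⟩
  have hwind : wind t + sgn c = 6 * sg (cmE v d t) := by
    rw [hE, ← turn_sum hP, Finset.sum_range_succ, cm_tauc, wind_sum]
    congr 1
    apply Finset.sum_congr rfl
    intro i hi
    rw [Finset.mem_range] at hi
    rw [cm_tau hi]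
  have hxp : 0 < xc ^ t.length := pow_pos xc_pos _
  rw [wt_re]
  have key : Real.cos (wind t * (Real.pi / 8)) ≤ 0 := by
    rcases sg_cases (cmE v d t) with hs | hs
    · cases c
      · have hw : wind t = 7 := by
          rw [hs] at hwind
          have : sgn false = -1 := rfl
          omega
        rw [hw]
        push_cast
        exact cm_cos7
      · have hw : wind t = 5 := by
          rw [hs] at hwind
          have : sgn true = 1 := rfl
          omega
        rw [hw]
        push_cast
        exact cm_cos5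
    · cases c
      · have hw : wind t = -5 := by
          rw [hs] at hwind
          have : sgn false = -1 := rfl
          omega
        rw [hw]
        push_cast
        rw [neg_mul, Real.cos_neg]
        exact cm_cos5
      · have hw : wind t = -7 := by
          rw [hs] at hwind
          have : sgn true = 1 := rfl
          omega
        rw [hw]
        push_cast
        rw [neg_mul, Real.cos_neg]
        exact cm_cos7
  nlinarith

private lemma cm_card1 : ∀ c : ZMod 3, c ≠ 1 →
    (dirs.filter (fun d => c + cl d ≠ 1)).card = 3 := by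
  decide

open Classical in
private lemma cm_card {v : Pt} (hv : Vt v) : (dirs.filter (fun d => De (v, d))).card = 3 := by
  have h1 : dirs.filter (fun d => De (v, d)) = dirs.filter (fun d => cl v + cl d ≠ 1) := by
    apply Finset.filter_congr
    intro d hd
    unfold De Vt
    simp only [← cl_add]
    constructor
    · rintro ⟨_, _, h⟩
      exact h
    · intro h
      exact ⟨hd, hv, h⟩
  rw [h1]
  exact cm_card1 _ hv

private lemma cm_main (n : ℕ) : ∀ {Ω : Finset Pt}, Ω.card ≤ n → Full Ω → ∀ {v : Pt}, v ∈ Ω → 3 ≤ HH Ω {v} := by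
  classical
  induction n with
  | zero =>
    intro Ω h _ v hv
    have := Finset.card_pos.2 ⟨v, hv⟩
    omega
  | succ n ih =>
    intro Ω hcard hΩ v hv
    have hx := xc_pos
    have hvt : Vt v := hΩ.1 v hv
    have e1 : HH Ω {v} = ∑ d ∈ dirs.filter (fun d => De (v, d)), ((SS (Ω.erase v) (v, d)).re -
        ∑ t ∈ (ex0 (Ω.erase v) (v, d)).filter (fun t => tp (v, d) t = v), (wt t).re) := by
      rw [HH_vertex hΩ hv]
      apply Finset.sum_congr rfl
      intro d _
      have h1 : exv Ω v (v, d) = (ex0 (Ω.erase v) (v, d)).filter (fun t => ¬ tp (v, d) t = v) := by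
        unfold exv
        apply Finset.filter_congr
        intro t _
        rfl
      unfold SS
      rw [Complex.re_sum, h1, ← Finset.sum_filter_add_sum_filter_not (ex0 (Ω.erase v) (v, d))
        (fun t => tp (v, d) t = v)]
      ring
    have e2 := bulk_vertex hΩ hv
    have e3 : ∑ d ∈ dirs.filter (fun d => De (v, d)), ∑ t ∈ (ex0 (Ω.erase v) (v, d)).filter
        (fun t => tp (v, d) t = v), (wt t).re ≤ 0 := by
      apply Finset.sum_nonpos
      intro d hd
      apply Finset.sum_nonpos
      intro t ht
      rw [Finset.mem_filter] at hd ht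
      exact ret_nonpos hd.2 ht.1 ht.2
    have e4 : 0 ≤ ∑ E ∈ (polys Ω).filter (fun E => Ins E v), xc ^ E.card * HH (inn Ω E) {v} := by
      apply Finset.sum_nonneg
      intro E hE
      rw [Finset.mem_filter] at hE
      apply mul_nonneg (by positivity)
      have h2 := inn_card hE.1
      have h3 := ih (by omega) (full_inn hΩ hE.1) (mem_inn.2 ⟨hv, hE.2⟩)
      linarith
    rw [cm_card hvt] at e2
    rw [e1, Finset.sum_sub_distrib]
    push_cast at e2
    linarith

/-- CM1: the walks through a vertex weigh at least 3. -/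
theorem HH_three {Ω : Finset Pt} (hΩ : Full Ω) {v : Pt} (hv : v ∈ Ω) : 3 ≤ HH Ω {v} :=
  cm_main Ω.card le_rfl hΩ hv

end LP

end HexObs
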