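import Pool.Agent.CMP.Defs
import Pool.Agent.CMP.HHThree
import Pool.Agent.HexLoop.Par

/-!
COMPRESSION, K4a: one start edge (helper39).
-/

set_option autoImplicit false

namespace HexObs

namespace CMP

open LP Complex Finset

/-- the word visits the point p. -/
def Vis (p : Pt) (t : List Bool) : Prop := ∃ i, 1 ≤ i ∧ i ≤ t.length ∧ vx oo up t i = p

open Classical in
/-- a word of n letters visits at most n points. -/
lemma count_hits {ι : Type*} {J : Finset ι} {φ : ι → Pt} (hφ : Set.InjOn φ J) {W : Finset (List Bool)}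
    {w : List Bool → ℝ} (h0 : ∀ t ∈ W, 0 ≤ w t) :
    ∑ p ∈ J, ∑ t ∈ W.filter (Vis (φ p)), w t ≤ ∑ t ∈ W, w t * t.length := by
  have e1 : ∑ p ∈ J, ∑ t ∈ W.filter (Vis (φ p)), w t = ∑ t ∈ W, ∑ p ∈ J, if Vis (φ p) t then w t else 0 := by
    rw [Finset.sum_comm]
    exact Finset.sum_congr rfl (fun p _ => Finset.sum_filter _ _)
  rw [e1]
  apply Finset.sum_le_sum
  intro t ht
  rw [← Finset.sum_filter, Finset.sum_const, nsmul_eq_mul, mul_comm]
  apply mul_le_mul_of_nonneg_left _ (h0 t ht)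
  have h1 : (J.filter (fun p => Vis (φ p) t)).card ≤ ((Icc 1 t.length).image (vx oo up t)).card := by
    apply Finset.card_le_card_of_injOn φ
    · intro p hp
      rw [Finset.mem_coe, Finset.mem_filter] at hp
      obtain ⟨_, i, h1, h2, h3⟩ := hp
      rw [Finset.mem_coe, Finset.mem_image]
      exact ⟨i, Finset.mem_Icc.2 ⟨h1, h2⟩, h3⟩
    · intro p hp p' hp' h
      rw [Finset.mem_coe, Finset.mem_filter] at hp hp'
      exact hφ hp.1 hp'.1 h
  have h2 := Finset.card_image_le (s := Icc 1 t.length) (f := vx oo up t)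
  rw [Nat.card_Icc, Nat.add_sub_cancel] at h2
  exact_mod_cast h1.trans h2

lemma par_exits_cw {T A B : ℕ} (hT : 1 ≤ T) (hA : 1 ≤ A) (hB : 1 ≤ B) {t : List Bool}
    (ht : t ∈ exits (Par T A B) oo up) : 0 ≤ cw t := by
  have h := Tube.dm_wind upd true hT hA hB ht
  apply cw_nn4
  rw [abs_le]
  omega

lemma cw_le_pow (t : List Bool) : cw t ≤ xc ^ t.length := by
  unfold cw
  have h1 := Real.cos_le_one (wind t * (Real.pi / 8))
  have h2 := pow_nonneg xc_pos.le t.length
  nlinarith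

open Classical in
lemma mem_WW {T h R : ℕ} {t : List Bool} : t ∈ WW T h R ↔ t ∈ exits (Par T R R) oo up ∧
    (dx up t t.length = up ∨ dx up t t.length = -up) ∧ ∃ i, 1 ≤ i ∧ i ≤ t.length ∧ 3 * (h : ℤ) + 2 ≤ lev t i := by
  unfold WW
  rw [Finset.mem_filter]

lemma lev_lv (t : List Bool) (i : ℕ) : lev t i = lv (vx oo up t i) := by
  unfold lev ip up lv
  ring

/-- a word that is not far stays in the small parallelogram. -/
lemma not_far {T A B h R : ℕ} (hT : 1 ≤ T) (hA : 1 ≤ A) (hB : 1 ≤ B) {t : List Bool}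
    (ht : t ∈ exits (Par T A B) oo up) (hd : dx up t t.length = up ∨ dx up t t.length = -up) (hf : ¬ Far R t)
    (hl : ∃ i, 1 ≤ i ∧ i ≤ t.length ∧ 3 * (h : ℤ) + 2 ≤ lev t i) : t ∈ WW T h R := by
  rw [mem_WW]
  refine ⟨?_, hd, hl⟩
  obtain ⟨h1, h2⟩ := mem_exits.1 ht
  rw [mem_exits]
  refine ⟨⟨?_, h1.inj⟩, ?_⟩
  · intro i hi1 hi2
    have h3 := h1.mem i hi1 hi2
    have h4 : ¬ (3 * (R : ℤ) - 1 ≤ nn (vx oo up t i) ∨ nn (vx oo up t i) ≤ -(3 * (R : ℤ))) :=
      fun h => hf ⟨i, hi1, hi2, h⟩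
    rw [mem_par] at h3 ⊢
    obtain ⟨a1, a2, a3, _, _⟩ := h3
    push Not at h4
    exact ⟨a1, a2, a3, by linarith [h4.2], by linarith [h4.1]⟩
  · intro h3
    rw [mem_par] at h3
    obtain ⟨_, b2, b3, _, _⟩ := h3
    have e1 : ip (tip oo up t - oo) up = lv (tip oo up t) := by
      have : tip oo up t - oo = tip oo up t := sub_zero _
      rw [this]
      unfold ip up lv
      ring
    rcases Tube.dm_exit upd true hT hA hB ht with ⟨_, h⟩ | ⟨_, h⟩ | ⟨h, _⟩ | ⟨h, _⟩
    · omega
    · omega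
    · rcases hd with hd | hd <;> rw [hd] at h <;> exact absurd h (by decide)
    · rcases hd with hd | hd <;> rw [hd] at h <;> exact absurd h (by decide)

open Classical in
/-- the walks from one start edge through one vertex. -/
lemma start_bound {C q : ℝ} (hlat : ∀ T A B r : ℕ, 1 ≤ T → 1 ≤ A → 1 ≤ B → 1 ≤ r →
    ∑ t ∈ (exits (Par T A B) oo up).filter (Far r), cw t ≤ C * q ^ (r / T)) {T h R A B : ℕ} (hT : 1 ≤ T)
    (hA : 1 ≤ A) (hB : 1 ≤ B) (hR : 1 ≤ R) {S : Finset (List Bool)} {p : Pt} {k : ℕ}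
    (hS : ∀ t ∈ S, t ∈ exits (Par T A B) oo up ∧ (dx up t t.length = up ∨ dx up t t.length = -up) ∧ Vis p t)
    (hlev : 3 * (h : ℤ) + 2 ≤ lv p)
    (hfar : R + T < k → 3 * ((k : ℤ) - T) - 1 ≤ nn p ∨ nn p ≤ -(3 * ((k : ℤ) - T))) :
    ∑ t ∈ S, cw t ≤ ∑ t ∈ (WW T h R).filter (Vis p), cw t + C * q ^ (max R (k - T) / T) := by
  have hr : 1 ≤ max R (k - T) := le_max_of_le_left hR
  have h1 := hlat T A B (max R (k - T)) hT hA hB hr
  have hsub : S ⊆ (WW T h R).filter (Vis p) ∪ (exits (Par T A B) oo up).filter (Far (max R (k - T))) := by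
    intro t ht
    obtain ⟨h2, h3, i, h4, h5, h6⟩ := hS t ht
    rw [Finset.mem_union]
    by_cases hf : Far (max R (k - T)) t
    · right
      exact Finset.mem_filter.2 ⟨h2, hf⟩
    · left
      have hkR : k ≤ R + T := by
        by_contra hcon
        push Not at hcon
        apply hf
        refine ⟨i, h4, h5, ?_⟩
        have e : ((max R (k - T) : ℕ) : ℤ) = (k : ℤ) - T := by
          rw [max_eq_right (by omega)]
          push_cast [show T ≤ k by omega]
          ring
        rw [e, h6]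
        exact hfar hcon
      have e : max R (k - T) = R := max_eq_left (by omega)
      rw [e] at hf
      refine Finset.mem_filter.2 ⟨not_far hT hA hB h2 h3 hf ⟨i, h4, h5, ?_⟩, i, h4, h5, h6⟩
      rw [lev_lv, h6]
      exact hlev
  have hnn1 : ∀ t ∈ (WW T h R).filter (Vis p), 0 ≤ cw t := by
    intro t ht
    exact par_exits_cw hT hR hR (mem_WW.1 (Finset.mem_filter.1 ht).1).1
  have hnn2 : ∀ t ∈ (exits (Par T A B) oo up).filter (Far (max R (k - T))), 0 ≤ cw t := by
    intro t ht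
    exact par_exits_cw hT hA hB (Finset.mem_filter.1 ht).1
  calc ∑ t ∈ S, cw t ≤ ∑ t ∈ (WW T h R).filter (Vis p) ∪ (exits (Par T A B) oo up).filter (Far (max R (k - T))), cw t :=
        Finset.sum_le_sum_of_subset_of_nonneg hsub (fun t ht _ => by
          rcases Finset.mem_union.1 ht with h | h
          · exact hnn1 t h
          · exact hnn2 t h)
    _ ≤ ∑ t ∈ (WW T h R).filter (Vis p), cw t + ∑ t ∈ (exits (Par T A B) oo up).filter (Far (max R (k - T))), cw t := by
        have := Finset.sum_union_inter (s₁ := (WW T h R).filter (Vis p))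
          (s₂ := (exits (Par T A B) oo up).filter (Far (max R (k - T)))) (f := cw)
        have h3 : 0 ≤ ∑ t ∈ (WW T h R).filter (Vis p) ∩ (exits (Par T A B) oo up).filter (Far (max R (k - T))), cw t :=
          Finset.sum_nonneg (fun t ht => hnn1 t (Finset.mem_inter.1 ht).1)
        linarith
    _ ≤ _ := by linarith

end CMP

end HexObs
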