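import Pool.Agent.CMP.MeanA

/-!
COMPRESSION, K4b: the sum over the start edges at the floor and at the top (helper39).
-/

set_option autoImplicit false

namespace HexObs

namespace CMP

open LP Complex Finset

/-- the vertex of the two middle columns on the level l. -/
def kv (l : ℤ) : Pt := (l % 2, l / 2)

lemma lv_kv (l : ℤ) : lv (kv l) = l := by
  unfold lv kv
  simp only
  omega

lemma nn_kv (l : ℤ) : nn (kv l) = l % 2 - l / 2 := rfl

/-- indices of the vertices in the middle h rows. -/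
def KJ (h : ℕ) : Finset (ℕ × ℕ) := range h ×ˢ {2, 3}

/-- their levels. -/
def kl (h : ℕ) (x : ℕ × ℕ) : ℤ := 3 * (h + x.1) + x.2

lemma KJ_card (h : ℕ) : (KJ h).card = 2 * h := by
  unfold KJ
  rw [Finset.card_product, Finset.card_range]
  rw [show ({2, 3} : Finset ℕ).card = 2 from rfl]
  ring

lemma mem_KJ {h : ℕ} {x : ℕ × ℕ} (hx : x ∈ KJ h) : x.1 < h ∧ (x.2 = 2 ∨ x.2 = 3) := by
  unfold KJ at hx
  rw [Finset.mem_product, Finset.mem_range] at hx
  simpa using hx

lemma kl_bd {h : ℕ} {x : ℕ × ℕ} (hx : x ∈ KJ h) : 3 * (h : ℤ) + 2 ≤ kl h x ∧ kl h x ≤ 6 * h := by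
  have := mem_KJ hx
  unfold kl
  omega

lemma kl_inj {h : ℕ} {x y : ℕ × ℕ} (hx : x ∈ KJ h) (hy : y ∈ KJ h) (he : kl h x = kl h y) : x = y := by
  have h1 := mem_KJ hx
  have h2 := mem_KJ hy
  unfold kl at he
  ext <;> omega

lemma kv_cl {h : ℕ} {x : ℕ × ℕ} (hx : x ∈ KJ h) : Vt (kv (kl h x)) := by
  have h1 := mem_KJ hx
  have h2 : ¬ (3 ∣ ((kv (kl h x)).1 - (kv (kl h x)).2 - 1)) := by
    unfold kv kl
    simp only
    omega
  have h3 := (arcA_cl' (kv (kl h x))).2 h2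
  unfold Vt
  rcases h3 with h | h <;> rw [h] <;> decide

lemma mem_bd' {T A B : ℕ} {a : Pt × Pt} (ha : a ∈ bd (Par T A B)) :
    De a ∧ a.1 ∉ Par T A B ∧ a.1 + a.2 ∈ Par T A B := by
  unfold bd at ha
  simp only [Finset.mem_filter, Finset.mem_image] at ha
  obtain ⟨⟨p, hp, rfl⟩, h1, h2⟩ := ha
  refine ⟨h1, h2, ?_⟩
  show p.1 - p.2 + p.2 ∈ _
  rw [sub_add_cancel]
  exact (Finset.mem_product.1 hp).1

lemma hmul' (w : Pt) : mulE (-1, 0) w = -w := by
  simp only [mulE]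
  ext
  · simp
  · simp

/-- starts at the floor. -/
lemma floor_start {T A B : ℕ} (hT : 1 ≤ T) (hA : 1 ≤ A) (hB : 1 ≤ B) {a : Pt × Pt} (ha : a ∈ bd (Par T A B))
    (h : a.2 = up) : ∃ k : ℤ, a = ((2 * k, -k), up) ∧ -(A : ℤ) < k ∧ k < B := by
  obtain ⟨_, _, h3⟩ := mem_bd' ha
  have h1 : lv a.1 = 0 := by
    rcases par_bd hT hA hB ha with ⟨_, h⟩ | ⟨h', _⟩ | ⟨h', _⟩ | ⟨h', _⟩
    · exact h
    all_goals rw [h] at h'; exact absurd h' (by decide)
  rw [h, mem_par] at h3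
  obtain ⟨_, _, _, h4, h5⟩ := h3
  unfold lv at h1
  unfold nn at h4 h5
  simp only [Prod.fst_add, Prod.snd_add, up] at h4 h5
  refine ⟨-a.1.2, ?_, by omega, by omega⟩
  apply Prod.ext
  · apply Prod.ext
    · show a.1.1 = 2 * -a.1.2
      omega
    · show a.1.2 = - -a.1.2
      ring
  · exact h

/-- starts at the top. -/
lemma top_start {T A B : ℕ} (hT : 1 ≤ T) (hA : 1 ≤ A) (hB : 1 ≤ B) {a : Pt × Pt} (ha : a ∈ bd (Par T A B))
    (h : a.2 = -up) : ∃ k : ℤ, a = ((2 * k + T, T + 1 - k), -up) ∧ -(A : ℤ) < k ∧ k < B := by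
  obtain ⟨_, _, h3⟩ := mem_bd' ha
  have h1 : lv a.1 = 3 * T + 2 := by
    rcases par_bd hT hA hB ha with ⟨h', _⟩ | ⟨_, h⟩ | ⟨h', _⟩ | ⟨h', _⟩
    · rw [h] at h'; exact absurd h' (by decide)
    · exact h
    all_goals rw [h] at h'; exact absurd h' (by decide)
  rw [h, mem_par] at h3
  obtain ⟨_, _, _, h4, h5⟩ := h3
  unfold lv at h1
  unfold nn at h4 h5
  simp only [Prod.fst_add, Prod.snd_add, up, Prod.fst_neg, Prod.snd_neg] at h4 h5
  refine ⟨T + 1 - a.1.2, ?_, by omega, by omega⟩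
  apply Prod.ext
  · apply Prod.ext
    · show a.1.1 = 2 * (T + 1 - a.1.2) + T
      omega
    · show a.1.2 = T + 1 - (T + 1 - a.1.2)
      ring
  · exact h

/-- the words from the floor. -/
lemma floor_tr {T A B : ℕ} {k : ℤ} (h1 : -(A : ℤ) < k) (h2 : k < B) {t : List Bool}
    (ht : t ∈ ex0 (Par T A B) ((2 * k, -k), up)) : t ∈ exits (Par T (A + k).toNat (B - k).toNat) oo up := by
  apply arcA_tr (u := (1, 0)) (v0 := (2 * k, -k)) (P := Par T A B) (d := up) _ (mulE_one up) ht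
  intro w
  have e1 : ((A + k).toNat : ℤ) = A + k := Int.toNat_of_nonneg (by omega)
  have e2 : ((B - k).toNat : ℤ) = B - k := Int.toNat_of_nonneg (by omega)
  rw [mulE_one, arcA_par, arcA_mem, e1, e2, arcA_cl', arcA_cl']
  simp only [Prod.fst_add, Prod.snd_add]
  constructor
  · rintro ⟨g1, g2, g3, g4, g5⟩
    refine ⟨?_, ?_, ?_, ?_, ?_⟩ <;> omega
  · rintro ⟨g1, g2, g3, g4, g5⟩
    refine ⟨?_, ?_, ?_, ?_, ?_⟩ <;> omega

/-- the words from the top. -/
lemma top_tr {T A B : ℕ} {k : ℤ} (h1 : -(A : ℤ) < k) (h2 : k < B) {t : List Bool}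
    (ht : t ∈ ex0 (Par T A B) ((2 * k + T, T + 1 - k), -up)) :
    t ∈ exits (Par T (B - k).toNat (A + k).toNat) oo up := by
  apply arcA_tr (u := (-1, 0)) (v0 := (2 * k + T, T + 1 - k)) (P := Par T A B) (d := -up) _ (hmul' up) ht
  intro w
  have e1 : ((A + k).toNat : ℤ) = A + k := Int.toNat_of_nonneg (by omega)
  have e2 : ((B - k).toNat : ℤ) = B - k := Int.toNat_of_nonneg (by omega)
  rw [hmul', arcA_par, arcA_mem, e1, e2, arcA_cl', arcA_cl']
  simp only [Prod.fst_add, Prod.snd_add, Prod.fst_neg, Prod.snd_neg]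
  constructor
  · rintro ⟨g1, g2, g3, g4, g5⟩
    refine ⟨?_, ?_, ?_, ?_, ?_⟩ <;> omega
  · rintro ⟨g1, g2, g3, g4, g5⟩
    refine ⟨?_, ?_, ?_, ?_, ?_⟩ <;> omega

/-- relative position of the vertex, from the floor. -/
def phF (h : ℕ) (y : ℤ × (ℕ × ℕ)) : Pt := kv (kl h y.2) - (2 * y.1, -y.1)

/-- relative position of the vertex, from the top (T = 3 h). -/
def phT (h : ℕ) (y : ℤ × (ℕ × ℕ)) : Pt := (2 * y.1 + (3 * h : ℕ), (3 * h : ℕ) + 1 - y.1) - kv (kl h y.2)

lemma phF_inj (h : ℕ) {y z : ℤ × (ℕ × ℕ)} (hy : y.2 ∈ KJ h) (hz : z.2 ∈ KJ h) (he : phF h y = phF h z) : y = z := by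
  have h1 : lv (phF h y) = lv (phF h z) := by rw [he]
  have e : ∀ y : ℤ × (ℕ × ℕ), lv (phF h y) = kl h y.2 := by
    intro y
    have := lv_kv (kl h y.2)
    unfold phF
    unfold lv at this ⊢
    simp only [Prod.fst_sub, Prod.snd_sub]
    linarith
  rw [e, e] at h1
  have h2 := kl_inj hy hz h1
  have h3 := congrArg Prod.fst he
  unfold phF at h3
  simp only [Prod.fst_sub] at h3
  rw [h2] at h3
  exact Prod.ext (by linarith) h2

lemma phT_inj (h : ℕ) {y z : ℤ × (ℕ × ℕ)} (hy : y.2 ∈ KJ h) (hz : z.2 ∈ KJ h) (he : phT h y = phT h z) : y = z := by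
  have h1 : lv (phT h y) = lv (phT h z) := by rw [he]
  have e : ∀ y : ℤ × (ℕ × ℕ), lv (phT h y) = 9 * h + 2 - kl h y.2 := by
    intro y
    have := lv_kv (kl h y.2)
    unfold phT
    unfold lv at this ⊢
    simp only [Prod.fst_sub, Prod.snd_sub]
    push_cast
    linarith
  rw [e, e] at h1
  have h2 := kl_inj hy hz (by linarith)
  have h3 := congrArg Prod.fst he
  unfold phT at h3
  simp only [Prod.fst_sub] at h3
  rw [h2] at h3
  exact Prod.ext (by linarith) h2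

/-- the walks through the vertex v from the edge a that leave through the floor or the top. -/
noncomputable def Gd (T L : ℕ) (v : Pt) (a : Pt × Pt) : Finset (List Bool) := by
  classical exact (ex0 (Par T L L) a).filter (fun t =>
    (dx a.2 t t.length = up ∨ dx a.2 t t.length = -up) ∧ Hit {v} a t)

open Classical in
lemma mem_Gd {T L : ℕ} {v : Pt} {a : Pt × Pt} {t : List Bool} : t ∈ Gd T L v a ↔ t ∈ ex0 (Par T L L) a ∧
    (dx a.2 t t.length = up ∨ dx a.2 t t.length = -up) ∧ Hit {v} a t := by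
  unfold Gd
  rw [Finset.mem_filter]

open Classical in
lemma floor_bound {C q : ℝ} (hlat : ∀ T A B r : ℕ, 1 ≤ T → 1 ≤ A → 1 ≤ B → 1 ≤ r →
    ∑ t ∈ (exits (Par T A B) oo up).filter (Far r), cw t ≤ C * q ^ (r / T)) {h R L : ℕ} (hh : 1 ≤ h)
    (hR : 1 ≤ R) {k : ℤ} (h1 : -(L : ℤ) < k) (h2 : k < L) {x : ℕ × ℕ} (hx : x ∈ KJ h) :
    ∑ t ∈ Gd (3 * h) L (kv (kl h x)) ((2 * k, -k), up), cw t ≤
      ∑ t ∈ (WW (3 * h) h R).filter (Vis (phF h (k, x))), cw t +
        C * q ^ (max R (k.natAbs - 3 * h) / (3 * h)) := by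
  have hb := kl_bd hx
  have hlv := lv_kv (kl h x)
  have e1 : lv (phF h (k, x)) = kl h x := by
    unfold phF
    unfold lv at hlv ⊢
    simp only [Prod.fst_sub, Prod.snd_sub]
    linarith
  have e2 : nn (phF h (k, x)) = kl h x % 2 - kl h x / 2 - 3 * k := by
    unfold phF nn kv
    simp only [Prod.fst_sub, Prod.snd_sub]
    ring
  apply start_bound hlat (A := (L + k).toNat) (B := (L - k).toNat) (by omega) (by omega) (by omega) hR
  · intro t ht
    rw [mem_Gd] at ht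
    obtain ⟨h3, h4, i, h5, h6, h7⟩ := ht
    refine ⟨floor_tr h1 h2 h3, h4, i, h5, h6, ?_⟩
    rw [Finset.mem_singleton] at h7
    have hvx : vx (2 * k, -k) up t i = (2 * k, -k) + vx oo up t i := by
      have := arcA_vx (u := (1, 0)) (v0 := (2 * k, -k)) t i
      rw [mulE_one, mulE_one] at this
      exact this
    have h8 : vx (2 * k, -k) up t i = kv (kl h x) := h7
    rw [hvx] at h8
    unfold phF
    rw [← h8]
    simp
  · rw [e1]
    exact hb.1
  · intro hk
    rw [e2]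
    push_cast at hk ⊢
    rcases le_total 0 k with h0 | h0
    · right
      have h9 : |k| = k := abs_of_nonneg h0
      rw [h9] at *
      omega
    · left
      have h9 : |k| = -k := abs_of_nonpos h0
      rw [h9] at *
      omega

open Classical in
lemma top_bound {C q : ℝ} (hlat : ∀ T A B r : ℕ, 1 ≤ T → 1 ≤ A → 1 ≤ B → 1 ≤ r →
    ∑ t ∈ (exits (Par T A B) oo up).filter (Far r), cw t ≤ C * q ^ (r / T)) {h R L : ℕ} (hh : 1 ≤ h)
    (hR : 1 ≤ R) {k : ℤ} (h1 : -(L : ℤ) < k) (h2 : k < L) {x : ℕ × ℕ} (hx : x ∈ KJ h) :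
    ∑ t ∈ Gd (3 * h) L (kv (kl h x)) ((2 * k + (3 * h : ℕ), (3 * h : ℕ) + 1 - k), -up), cw t ≤
      ∑ t ∈ (WW (3 * h) h R).filter (Vis (phT h (k, x))), cw t +
        C * q ^ (max R (k.natAbs - 3 * h) / (3 * h)) := by
  have hb := kl_bd hx
  have hlv := lv_kv (kl h x)
  have e1 : lv (phT h (k, x)) = 9 * h + 2 - kl h x := by
    unfold phT
    unfold lv at hlv ⊢
    simp only [Prod.fst_sub, Prod.snd_sub]
    push_cast
    linarith
  have e2 : nn (phT h (k, x)) = 3 * k - 1 - (kl h x % 2 - kl h x / 2) := by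
    unfold phT nn kv
    simp only [Prod.fst_sub, Prod.snd_sub]
    push_cast
    ring
  have hdx : ∀ t : List Bool, ∀ i, dx (-up) t i = -dx up t i := by
    intro t i
    have := dx_mulE (-1, 0) up t i
    rw [hmul', hmul'] at this
    exact this
  apply start_bound hlat (A := (L - k).toNat) (B := (L + k).toNat) (by omega) (by omega) (by omega) hR
  · intro t ht
    rw [mem_Gd] at ht
    obtain ⟨h3, h4, i, h5, h6, h7⟩ := ht
    refine ⟨top_tr h1 h2 h3, ?_, i, h5, h6, ?_⟩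
    · simp only [hdx] at h4
      rcases h4 with h4 | h4
      · right
        have h9 := congrArg Neg.neg h4
        rw [neg_neg] at h9
        exact h9
      · left
        exact neg_injective h4
    rw [Finset.mem_singleton] at h7
    have hvx : vx (2 * k + (3 * h : ℕ), (3 * h : ℕ) + 1 - k) (-up) t i =
        (2 * k + (3 * h : ℕ), (3 * h : ℕ) + 1 - k) + -vx oo up t i := by
      have := arcA_vx (u := (-1, 0)) (v0 := (2 * k + (3 * h : ℕ), (3 * h : ℕ) + 1 - k)) t i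
      rw [hmul', hmul'] at this
      exact this
    have h8 : vx (2 * k + (3 * h : ℕ), (3 * h : ℕ) + 1 - k) (-up) t i = kv (kl h x) := h7
    rw [hvx] at h8
    unfold phT
    rw [← h8]
    simp
  · rw [e1]
    linarith [hb.2]
  · intro hk
    rw [e2]
    push_cast at hk ⊢
    rcases le_total 0 k with h0 | h0
    · left
      have h9 : |k| = k := abs_of_nonneg h0
      rw [h9] at *
      omega
    · right
      have h9 : |k| = -k := abs_of_nonpos h0
      rw [h9] at *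
      omega

end CMP

end HexObs
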