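import Pool.Agent.CMP.CompOf

/-!
COMPRESSION, K7c: the two parts of the theorem in terms of words (helper39).
-/

set_option autoImplicit false

namespace HexObs

namespace CMP

open LP Complex Finset

/-- radius squared of part (b). -/
noncomputable def Db (C β : ℝ) (n : ℕ) : ℤ := ⌈C * (n : ℝ) ^ (2 / β) * Real.log n ^ 2⌉

/-- radius squared of part (a). -/
noncomputable def Da (C β : ℝ) (n : ℕ) : ℤ := ⌈C * (n : ℝ) ^ (2 / β) * Real.log n ^ 4⌉

lemma log_two_le {n : ℕ} (hn : 2 ≤ n) : Real.log 2 ≤ Real.log n :=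
  Real.log_le_log (by norm_num) (by exact_mod_cast hn)

lemma const_le_log {c : ℝ} (hc : 0 ≤ c) {n : ℕ} (hn : 2 ≤ n) : c ≤ c / Real.log 2 * Real.log n := by
  have h1 := log_two_le hn
  have h2 : 0 < Real.log 2 := Real.log_pos (by norm_num)
  rw [div_mul_eq_mul_div, le_div_iff₀ h2]
  exact mul_le_mul_of_nonneg_left h1 hc

theorem part_b {β : ℝ} (hβ : 1 ≤ β) (hc : Comp β) : ∃ (C : ℝ) (d : ℕ), 0 < C ∧ ∀ n : ℕ, 2 ≤ n →
    1 ≤ C * (n : ℝ) ^ d * (xc ^ n * (sS n (Db C β n) : ℝ)) := by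
  obtain ⟨C0, hC0, hc⟩ := hc
  obtain ⟨d, hd, hsh⟩ := shorter
  have hβ0 : 0 < β := by linarith
  have hlog2 : 0 < Real.log 2 := Real.log_pos (by norm_num)
  set c1 : ℝ := C0 ^ (1 / β) + 1 with hc1
  have hc1' : 1 ≤ c1 := by
    have := Real.rpow_nonneg hC0.le (1 / β)
    linarith
  have hlc1 : 0 ≤ Real.log c1 := Real.log_nonneg hc1'
  set c2 : ℝ := (1 + Real.log c1) / Real.log 2 + 1 with hc2
  have hc2' : 0 < c2 := by positivity
  refine ⟨max d (C0 * c1 ^ 2 * c2 ^ 2), d, by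
    apply lt_max_of_lt_left
    exact_mod_cast hd, ?_⟩
  intro n hn
  have hn1 : (1 : ℝ) ≤ n := by exact_mod_cast (by omega : 1 ≤ n)
  have hn0 : (0 : ℝ) < n := by linarith
  have hln : 0 < Real.log n := lt_of_lt_of_le hlog2 (log_two_le hn)
  set h := ⌈(C0 * n) ^ (1 / β)⌉₊ with hh
  have hpos : 0 < (C0 * (n : ℝ)) ^ (1 / β) := Real.rpow_pos_of_pos (by positivity) _
  have hh1 : 1 ≤ h := Nat.ceil_pos.2 hpos
  have hh1' : (1 : ℝ) ≤ h := by exact_mod_cast hh1
  have hh2 : (C0 * (n : ℝ)) ^ (1 / β) ≤ h := Nat.le_ceil _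
  have hnb : 1 ≤ (n : ℝ) ^ (1 / β) := Real.one_le_rpow hn1 (by positivity)
  have hh3 : (h : ℝ) ≤ c1 * (n : ℝ) ^ (1 / β) := by
    have h1 : (h : ℝ) < (C0 * (n : ℝ)) ^ (1 / β) + 1 := Nat.ceil_lt_add_one hpos.le
    rw [Real.mul_rpow hC0.le hn0.le] at h1
    rw [hc1, add_mul, one_mul]
    linarith
  obtain ⟨m, hm1, hm2, hm3⟩ := hc h hh1
  have hnm : n ≤ m := by
    have h1 : C0 * (n : ℝ) ≤ (h : ℝ) ^ β := by
      have h2 := Real.rpow_le_rpow hpos.le hh2 hβ0.le
      rw [← Real.rpow_mul (by positivity), one_div_mul_cancel hβ0.ne', Real.rpow_one] at h2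
      exact h2
    have h3 := le_of_mul_le_mul_left (h1.trans hm2) hC0
    exact_mod_cast h3
  have h4 := hsh n m _ (by omega) hnm hm3
  have hD : ⌈C0 * (h : ℝ) ^ 2 * (1 + Real.log h) ^ 2⌉ ≤ Db (max d (C0 * c1 ^ 2 * c2 ^ 2)) β n := by
    unfold Db
    apply Int.ceil_le_ceil
    have h5 : 1 + Real.log h ≤ c2 * Real.log n := by
      have h6 : Real.log h ≤ Real.log c1 + 1 / β * Real.log n := by
        rw [← Real.log_rpow hn0, ← Real.log_mul (by positivity) (by positivity)]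
        exact Real.log_le_log (by linarith) hh3
      have h7 : 1 / β * Real.log n ≤ Real.log n := by
        have : 1 / β ≤ 1 := by
          rw [div_le_one hβ0]
          exact hβ
        nlinarith
      have h8 := const_le_log (c := 1 + Real.log c1) (by linarith) hn
      rw [hc2, add_mul, one_mul]
      linarith
    have h9 : 0 ≤ 1 + Real.log h := by
      have := Real.log_nonneg hh1'
      linarith
    have h10 : (1 + Real.log h) ^ 2 ≤ (c2 * Real.log n) ^ 2 := pow_le_pow_left₀ h9 h5 2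
    have h11 : (h : ℝ) ^ 2 ≤ (c1 * (n : ℝ) ^ (1 / β)) ^ 2 := pow_le_pow_left₀ (by linarith) hh3 2
    have h12 : ((n : ℝ) ^ (1 / β)) ^ 2 = (n : ℝ) ^ (2 / β) := by
      rw [← Real.rpow_natCast, ← Real.rpow_mul hn0.le]
      congr 1
      push_cast
      ring
    calc C0 * (h : ℝ) ^ 2 * (1 + Real.log h) ^ 2 ≤ C0 * (c1 * (n : ℝ) ^ (1 / β)) ^ 2 * (c2 * Real.log n) ^ 2 := by
          apply mul_le_mul (mul_le_mul_of_nonneg_left h11 hC0.le) h10 (by positivity) (by positivity)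
      _ = C0 * c1 ^ 2 * c2 ^ 2 * (n : ℝ) ^ (2 / β) * Real.log n ^ 2 := by
          rw [mul_pow, h12]
          ring
      _ ≤ max (d : ℝ) (C0 * c1 ^ 2 * c2 ^ 2) * (n : ℝ) ^ (2 / β) * Real.log n ^ 2 := by
          apply mul_le_mul_of_nonneg_right _ (by positivity)
          exact mul_le_mul_of_nonneg_right (le_max_right _ _) (by positivity)
  have h13 : (sS n ⌈C0 * (h : ℝ) ^ 2 * (1 + Real.log h) ^ 2⌉ : ℝ) ≤ sS n (Db (max d (C0 * c1 ^ 2 * c2 ^ 2)) β n) := by
    exact_mod_cast sS_mono n hD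
  have hx := pow_pos xc_pos n
  refine h4.trans ?_
  apply mul_le_mul _ _ (by positivity) (by positivity)
  · exact mul_le_mul_of_nonneg_right (le_max_left _ _) (by positivity)
  · exact mul_le_mul_of_nonneg_left h13 hx.le

theorem part_a {β : ℝ} (hβ : 1 ≤ β) (hc : Comp β) : ∃ C : ℝ, 0 < C ∧ ∀ n : ℕ, 2 ≤ n →
    2 / 3 ≤ xc ^ n * (sS n (Da C β n) : ℝ) := by
  obtain ⟨C, d, hC, hb⟩ := part_b hβ hc
  obtain ⟨K, hK, hch⟩ := choose_k hC (r := 2 / 3) (by norm_num) (by norm_num) d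
  have hβ0 : 0 < β := by linarith
  have hlog2 : 0 < Real.log 2 := Real.log_pos (by norm_num)
  set c1 : ℝ := K / Real.log 2 + K + 1 / Real.log 2 with hc1
  have hc1' : 0 < c1 := by positivity
  refine ⟨C * c1 ^ 2 * (1 + c1) ^ 2, by positivity, ?_⟩
  intro n hn
  have hn1 : (1 : ℝ) ≤ n := by exact_mod_cast (by omega : 1 ≤ n)
  have hn0 : (0 : ℝ) < n := by linarith
  have hln : 0 < Real.log n := lt_of_lt_of_le hlog2 (log_two_le hn)
  obtain ⟨k, hk1, hk2, hk3⟩ := hch n hn1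
  have hk1' : (1 : ℝ) ≤ k := by exact_mod_cast hk1
  have hkc : (k : ℝ) ≤ c1 * Real.log n := by
    have h1 := const_le_log hK.le hn
    have h2 : 0 ≤ 1 / Real.log 2 * Real.log n := by positivity
    rw [hc1, add_mul, add_mul]
    linarith
  have hN : 2 ≤ k * n := le_trans hn (Nat.le_mul_of_pos_left n hk1)
  have h1 := hb (k * n) hN
  obtain ⟨j, rfl⟩ : ∃ j, k = j + 1 := ⟨k - 1, by omega⟩
  set D := Db C β ((j + 1) * n) with hD
  have hDD : D ≤ Da (C * c1 ^ 2 * (1 + c1) ^ 2) β n := by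
    rw [hD]
    unfold Db Da
    apply Int.ceil_le_ceil
    have hx1 : 1 ≤ c1 * Real.log n := by
      have := const_le_log zero_le_one hn
      have h2 : 0 ≤ (K / Real.log 2 + K) * Real.log n := by positivity
      rw [hc1, add_mul]
      linarith
    have e0 : (((j + 1) * n : ℕ) : ℝ) = ((j + 1 : ℕ) : ℝ) * n := by push_cast; ring
    have h2 : (((j + 1) * n : ℕ) : ℝ) ^ (2 / β) ≤ c1 ^ 2 * Real.log n ^ 2 * (n : ℝ) ^ (2 / β) := by
      rw [e0, Real.mul_rpow (by positivity) hn0.le]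
      apply mul_le_mul_of_nonneg_right _ (by positivity)
      calc (((j + 1 : ℕ) : ℝ)) ^ (2 / β) ≤ (c1 * Real.log n) ^ (2 / β) :=
            Real.rpow_le_rpow (by positivity) hkc (by positivity)
        _ ≤ (c1 * Real.log n) ^ (2 : ℝ) := by
            apply Real.rpow_le_rpow_of_exponent_le hx1
            rw [div_le_iff₀ hβ0]
            linarith
        _ = c1 ^ 2 * Real.log n ^ 2 := by
            rw [← mul_pow]
            exact Real.rpow_natCast _ 2
    have h3 : Real.log (((j + 1) * n : ℕ) : ℝ) ≤ (1 + c1) * Real.log n := by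
      rw [e0, Real.log_mul (by positivity) hn0.ne', add_mul, one_mul, add_comm]
      have h4 : Real.log ((j + 1 : ℕ) : ℝ) ≤ ((j + 1 : ℕ) : ℝ) := (Real.log_le_sub_one_of_pos (by positivity)).trans (by linarith)
      linarith
    have h5 : 0 ≤ Real.log (((j + 1) * n : ℕ) : ℝ) := Real.log_natCast_nonneg _
    have h6 : Real.log (((j + 1) * n : ℕ) : ℝ) ^ 2 ≤ ((1 + c1) * Real.log n) ^ 2 := pow_le_pow_left₀ h5 h3 2
    calc C * (((j + 1) * n : ℕ) : ℝ) ^ (2 / β) * Real.log (((j + 1) * n : ℕ) : ℝ) ^ 2 ≤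
        C * (c1 ^ 2 * Real.log n ^ 2 * (n : ℝ) ^ (2 / β)) * ((1 + c1) * Real.log n) ^ 2 := by
          apply mul_le_mul (mul_le_mul_of_nonneg_left h2 hC.le) h6 (by positivity) (by positivity)
      _ = _ := by ring
  have hx := pow_pos xc_pos n
  set y : ℝ := xc ^ n * (sS n D : ℝ) with hy
  have hy0 : 0 ≤ y := by positivity
  have h7 : 2 / 3 ≤ y := by
    by_contra hcon
    push Not at hcon
    have h8 : (sS ((j + 1) * n) D : ℝ) ≤ (sS n D : ℝ) ^ (j + 1) := by exact_mod_cast sS_pow n (j + 1) D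
    have h9 : xc ^ ((j + 1) * n) * (sS ((j + 1) * n) D : ℝ) ≤ y ^ (j + 1) := by
      rw [hy, mul_pow, ← pow_mul, mul_comm n]
      exact mul_le_mul_of_nonneg_left h8 (pow_nonneg xc_pos.le _)
    have h10 : y ^ (j + 1) ≤ (2 / 3) ^ (j + 1) := pow_le_pow_left₀ hy0 hcon.le _
    have h11 : C * (((j + 1) * n : ℕ) : ℝ) ^ d * (xc ^ ((j + 1) * n) * (sS ((j + 1) * n) D : ℝ)) ≤ 1 / 2 := by
      refine le_trans ?_ hk3
      have e1 : (((j + 1) * n : ℕ) : ℝ) ^ d = (n : ℝ) ^ d * ((j + 1 : ℕ) : ℝ) ^ d := by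
        rw [← mul_pow]
        push_cast
        ring
      rw [e1]
      calc C * ((n : ℝ) ^ d * ((j + 1 : ℕ) : ℝ) ^ d) * (xc ^ ((j + 1) * n) * (sS ((j + 1) * n) D : ℝ)) ≤
          C * ((n : ℝ) ^ d * (((j + 1 : ℕ) : ℝ) + 1) ^ d) * (2 / 3) ^ (j + 1) := by
            apply mul_le_mul _ (h9.trans h10) (mul_nonneg (pow_nonneg xc_pos.le _) (Nat.cast_nonneg _)) (by positivity)
            apply mul_le_mul_of_nonneg_left _ hC.le
            apply mul_le_mul_of_nonneg_left _ (by positivity)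
            exact pow_le_pow_left₀ (by positivity) (by linarith) d
        _ = _ := by ring
    linarith
  refine h7.trans ?_
  rw [hy]
  apply mul_le_mul_of_nonneg_left _ hx.le
  exact_mod_cast sS_mono n hDD

end CMP

end HexObs
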